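import Pool.Agent.Q62.EL.Loss
import Pool.Agent.H459R3.NS.Lp

/-!
The energy lost at a singular time: bounds by the enstrophy.
-/

set_option autoImplicit false

open MeasureTheory Set Filter Topology
open scoped ContDiff ENNReal

namespace Pool.Agent.Q62.EL

open H459R3.NS H459R3.EU Pool.Agent.Q62.GD

theorem nrm_cube_le : ∃ K : ℝ, 0 ≤ K ∧ ∀ f : V → ℝ, SP f → ∫ x in cube, f x = 0 →
    nrm (fun x => |f x| ^ 3) ≤ (K * grd f) ^ 3 := by
  obtain ⟨C, hC0, hC⟩ := sobolev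
  refine ⟨C * 2, by positivity, fun f hf h0 => ?_⟩
  have h1 := hC f hf
  have hg := grd_nonneg f
  have h2 : Real.sqrt ((∑ j, ∫ x in cube, pd j f x ^ 2) + ∫ x in cube, f x ^ 2) ≤ 2 * grd f := by
    refine Real.sqrt_le_iff.2 ⟨by positivity, ?_⟩
    rw [← grd_sq, ← nrm_sq]
    have h3 := pow_le_pow_left₀ (nrm_nonneg f) (poincare hf h0) 2
    nlinarith
  have h3 : C * Real.sqrt ((∑ j, ∫ x in cube, pd j f x ^ 2) + ∫ x in cube, f x ^ 2)
      ≤ C * 2 * grd f := by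
    rw [mul_assoc]
    exact mul_le_mul_of_nonneg_left h2 hC0
  have h4 : eLpNorm f 6 (volume.restrict cube) ≤ ENNReal.ofReal (C * 2 * grd f) :=
    h1.trans (ENNReal.ofReal_le_ofReal h3)
  have hc3 : Continuous fun x => |f x| ^ 3 := by
    have := hf.cont
    fun_prop
  have h5 := eLpNorm_two hc3
  have h6 := eLpNorm_norm_rpow (p := 2) (μ := volume.restrict cube) f (show (0 : ℝ) < 3 by norm_num)
  have e1 : (fun x => ‖f x‖ ^ (3 : ℝ)) = fun x => |f x| ^ 3 := by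
    funext x
    rw [Real.norm_eq_abs]
    norm_cast
  have e2 : (2 : ℝ≥0∞) * ENNReal.ofReal 3 = 6 := by
    rw [show (2 : ℝ≥0∞) = ENNReal.ofReal 2 by norm_num, ← ENNReal.ofReal_mul (by norm_num)]
    norm_num
  rw [e1, e2, h5] at h6
  have h7 : ENNReal.ofReal (nrm fun x => |f x| ^ 3) ≤ ENNReal.ofReal ((C * 2 * grd f) ^ 3) := by
    rw [h6]
    calc eLpNorm f 6 (volume.restrict cube) ^ (3 : ℝ)
        ≤ ENNReal.ofReal (C * 2 * grd f) ^ (3 : ℝ) := ENNReal.rpow_le_rpow h4 (by norm_num)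
      _ = ENNReal.ofReal ((C * 2 * grd f) ^ 3) := by
          rw [ENNReal.ofReal_rpow_of_nonneg (by positivity) (by norm_num)]
          congr 1
          norm_cast
  exact (ENNReal.ofReal_le_ofReal_iff (by positivity)).1 h7

theorem int_cube_le : ∃ K : ℝ, 0 ≤ K ∧ ∀ f : V → ℝ, SP f → ∫ x in cube, f x = 0 →
    ∫ x in cube, |f x| ^ 3 ≤ K * ((nrm f ^ 2) ^ (3 / 4 : ℝ) * (grd f ^ 2) ^ (3 / 4 : ℝ)) := by
  obtain ⟨K, hK0, hK⟩ := nrm_cube_le
  refine ⟨K ^ (3 / 2 : ℝ), by positivity, fun f hf h0 => ?_⟩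
  have hc := hf.cont
  have hn := nrm_nonneg f
  have hg := grd_nonneg f
  have c1 : Continuous fun x => |f x| := hc.abs
  have c2 : Continuous fun x => |f x| ^ 2 := by fun_prop
  have c3 : Continuous fun x => |f x| ^ 3 := by fun_prop
  have e0 : nrm (fun x => |f x|) = nrm f := by
    unfold nrm
    congr 1
    congr 1
    funext x
    exact sq_abs _
  have h1 : ∫ x in cube, |f x| ^ 3 ≤ nrm f * nrm (fun x => |f x| ^ 2) := by
    have h := abs_int_mul_le c1 c2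
    rw [e0] at h
    refine le_trans (le_of_eq ?_) ((le_abs_self _).trans h)
    congr 1
    funext x
    ring
  have h2 : nrm (fun x => |f x| ^ 2) ^ 2 ≤ nrm f * nrm (fun x => |f x| ^ 3) := by
    have h := abs_int_mul_le c1 c3
    rw [e0] at h
    rw [nrm_sq]
    refine le_trans (le_of_eq ?_) ((le_abs_self _).trans h)
    congr 1
    funext x
    ring
  have h3 := hK f hf h0
  have h4 : nrm (fun x => |f x| ^ 2) ≤ (nrm f * (K * grd f) ^ 3) ^ (1 / 2 : ℝ) := by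
    rw [← Real.sqrt_eq_rpow]
    refine Real.le_sqrt_of_sq_le (h2.trans ?_)
    exact mul_le_mul_of_nonneg_left h3 hn
  refine (h1.trans (mul_le_mul_of_nonneg_left h4 hn)).trans (le_of_eq ?_)
  have e1 : (nrm f ^ 2) ^ (3 / 4 : ℝ) = nrm f * nrm f ^ (1 / 2 : ℝ) := by
    rw [← Real.rpow_natCast, ← Real.rpow_mul hn]
    rcases hn.eq_or_lt with h | h
    · rw [← h]; norm_num
    · nth_rewrite 2 [← Real.rpow_one (nrm f)]
      rw [← Real.rpow_add h]
      norm_num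
  have e2 : ((K * grd f) ^ 3) ^ (1 / 2 : ℝ) = K ^ (3 / 2 : ℝ) * (grd f ^ 2) ^ (3 / 4 : ℝ) := by
    rw [← Real.rpow_natCast, ← Real.rpow_natCast, ← Real.rpow_mul (by positivity),
      ← Real.rpow_mul hg, Real.mul_rpow hK0 hg]
    norm_num
  rw [Real.mul_rpow hn (by positivity), e1, e2]
  ring

section

variable {T : ℝ} {u : ℝ → V → V} {p : ℝ → V → ℝ}

/-- the mean velocity -/
noncomputable def mean (v : V → V) : V := fun i => ∫ x in cube, v x i

theorem cube3_le : ∃ K : ℝ, 0 ≤ K ∧ ∀ v : V → V, (∀ i, SP (fun y => v y i)) →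
    cube3 (fun i y => v y i - mean v i) ≤ K * (energy v ^ (3 / 4 : ℝ) * enstrophy v ^ (3 / 4 : ℝ)) := by
  obtain ⟨K, hK0, hK⟩ := int_cube_le
  refine ⟨3 * K, by positivity, fun v hv => ?_⟩
  have h1 : ∀ i ∈ (Finset.univ : Finset (Fin 3)),
      ∫ x in cube, |(fun i y => v y i - mean v i) i x| ^ 3
      ≤ K * (energy v ^ (3 / 4 : ℝ) * enstrophy v ^ (3 / 4 : ℝ)) := by
    intro i _
    have hs : SP (fun y => v y i - mean v i) := sp_sub_const (hv i) _
    have h0 : ∫ x in cube, (v x i - mean v i) = 0 := by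
      rw [integral_sub (hv i).int (integrableOn_cube continuous_const)]
      unfold mean
      simp [Measure.real, volume_cube]
    refine (hK _ hs h0).trans ?_
    have a1 : nrm (fun y => v y i - mean v i) ^ 2 ≤ energy v := by
      rw [nrm_sq, sq_expand (hv i).int (integrableOn_cube ((hv i).cont.pow 2))]
      have a2 : ∫ x in cube, v x i ^ 2 ≤ energy v :=
        Finset.single_le_sum (f := fun i => ∫ x in cube, v x i ^ 2)
          (fun _ _ => integral_nonneg fun _ => sq_nonneg _) (Finset.mem_univ i)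
      have a3 : mean v i = ∫ x in cube, v x i := rfl
      rw [← a3]
      nlinarith [sq_nonneg (mean v i)]
    have a4 : grd (fun y => v y i - mean v i) ^ 2 ≤ enstrophy v := by
      rw [grd_sq]
      simp only [pd_sub_const]
      exact Finset.single_le_sum (f := fun i => ∑ j, ∫ x in cube, pd j (fun y => v y i) x ^ 2)
        (fun _ _ => Finset.sum_nonneg fun _ _ => integral_nonneg fun _ => sq_nonneg _)
        (Finset.mem_univ i)
    have b1 : (nrm (fun y => v y i - mean v i) ^ 2) ^ (3 / 4 : ℝ) ≤ energy v ^ (3 / 4 : ℝ) :=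
      Real.rpow_le_rpow (sq_nonneg _) a1 (by norm_num)
    have b2 : (grd (fun y => v y i - mean v i) ^ 2) ^ (3 / 4 : ℝ) ≤ enstrophy v ^ (3 / 4 : ℝ) :=
      Real.rpow_le_rpow (sq_nonneg _) a4 (by norm_num)
    have b3 : 0 ≤ (grd (fun y => v y i - mean v i) ^ 2) ^ (3 / 4 : ℝ) := by positivity
    have b4 : 0 ≤ energy v ^ (3 / 4 : ℝ) := Real.rpow_nonneg (energy_nonneg v) _
    exact mul_le_mul_of_nonneg_left (mul_le_mul b1 b2 b3 b4) hK0
  unfold cube3
  refine (Finset.sum_le_sum h1).trans (le_of_eq ?_)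
  simp
  ring

theorem loss_ens : ∃ C : ℝ, 0 < C ∧ ∀ {T : ℝ} {u : ℝ → V → V} {p : ℝ → V → ℝ}
    (_ : IsSol 0 T u p) (_ : 0 < T) {U : V → V} (_ : WeakLimit T u U) {t : ℝ} (_ : t ∈ Ico 0 T)
    {Y : ℝ → ℝ} (_ : IntegrableOn Y (Ioo t T))
    (_ : ∀ s ∈ Ioo t T, enstrophy (u s) ^ (3 / 4 : ℝ) ≤ Y s),
    loss u U ^ 3 ≤ C * (energy (u 0) ^ (3 / 2 : ℝ) * (enstrophy (u t) * (∫ s in t..T, Y s) ^ 2)) := by
  obtain ⟨K, hK0, hK⟩ := cube3_le
  refine ⟨23040 * K ^ 2 + 1, by positivity, fun {T u p} h hT {U} hU {t} ht {Y} hY hYe => ?_⟩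
  have hE0 := energy_nonneg (u 0)
  have hX : IntegrableOn (fun s => K * energy (u 0) ^ (3 / 4 : ℝ) * Y s) (Ioo t T) :=
    hY.const_mul _
  have hmean : ∀ s ∈ Ico 0 T, mean (u s) = mean (u t) := by
    intro s hs
    funext i
    unfold mean
    rw [mom_eq h i hs, mom_eq h i ht]
  have h1 := loss_cube h hT hU (mean (u t)) ht hX fun s hs => by
    have hs' : s ∈ Ico 0 T := ⟨ht.1.trans hs.1.le, hs.2⟩
    have h2 := hK (u s) fun i => h.sp hs' i
    rw [hmean s hs', energy_eq h hs'] at h2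
    refine h2.trans ?_
    rw [mul_assoc]
    refine mul_le_mul_of_nonneg_left ?_ hK0
    exact mul_le_mul_of_nonneg_left (hYe s hs) (Real.rpow_nonneg hE0 _)
  rw [intervalIntegral.integral_const_mul] at h1
  have e1 : (K * energy (u 0) ^ (3 / 4 : ℝ) * ∫ s in t..T, Y s) ^ 2
      = K ^ 2 * (energy (u 0) ^ (3 / 2 : ℝ) * (∫ s in t..T, Y s) ^ 2) := by
    rw [mul_pow, mul_pow, ← Real.rpow_natCast (energy (u 0) ^ (3 / 4 : ℝ)) 2,
      ← Real.rpow_mul hE0]
    norm_num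
    ring
  rw [e1] at h1
  have h3 : 0 ≤ energy (u 0) ^ (3 / 2 : ℝ) * (enstrophy (u t) * (∫ s in t..T, Y s) ^ 2) := by
    have := enstrophy_nonneg (u t)
    positivity
  calc _ ≤ 23040 * (enstrophy (u t) * (K ^ 2 * (energy (u 0) ^ (3 / 2 : ℝ)
        * (∫ s in t..T, Y s) ^ 2))) := h1
    _ = 23040 * K ^ 2 * (energy (u 0) ^ (3 / 2 : ℝ) * (enstrophy (u t)
        * (∫ s in t..T, Y s) ^ 2)) := by ring
    _ ≤ _ := by
        refine mul_le_mul_of_nonneg_right ?_ h3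
        linarith

/-- the power law -/
theorem loss_rate : ∃ C : ℝ, 0 < C ∧ ∀ {T : ℝ} {u : ℝ → V → V} {p : ℝ → V → ℝ}
    (_ : IsSol 0 T u p) (_ : 0 < T) {U : V → V} (_ : WeakLimit T u U) {t κ : ℝ} (_ : t ∈ Ico 0 T)
    (_ : ∀ s ∈ Ico t T, enstrophy (u s) ≤ κ * (T - s) ^ (-(4 / 5) : ℝ)),
    loss u U ^ 3 ≤ C * (energy (u 0) ^ (3 / 2 : ℝ) * κ ^ (5 / 2 : ℝ)) := by
  obtain ⟨C, hC0, hC⟩ := loss_ens
  refine ⟨C * (5 / 2) ^ 2, by positivity, fun {T u p} h hT {U} hU {t κ} ht hκ => ?_⟩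
  have hE0 := energy_nonneg (u 0)
  have hTt : 0 < T - t := sub_pos.2 ht.2
  have hκ0 : 0 ≤ κ := by
    have h1 := hκ t ⟨le_rfl, ht.2⟩
    have h2 := (enstrophy_nonneg (u t)).trans h1
    exact nonneg_of_mul_nonneg_left h2 (Real.rpow_pos_of_pos hTt _)
  have hint : IntervalIntegrable (fun s => (T - s) ^ (-(3 / 5) : ℝ)) volume t T := by
    have h1 : IntervalIntegrable (fun x : ℝ => x ^ (-(3 / 5) : ℝ)) volume 0 (T - t) :=
      intervalIntegral.intervalIntegrable_rpow' (by norm_num)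
    have h2 := h1.comp_sub_left T
    simp only [sub_zero, sub_sub_cancel] at h2
    exact h2.symm
  have hval : ∫ s in t..T, (T - s) ^ (-(3 / 5) : ℝ) = 5 / 2 * (T - t) ^ (2 / 5 : ℝ) := by
    rw [intervalIntegral.integral_comp_sub_left (fun x => x ^ (-(3 / 5) : ℝ)) T, sub_self,
      integral_rpow (Or.inl (by norm_num))]
    norm_num
    ring
  have h1 := hC h hT hU ht (Y := fun s => κ ^ (3 / 4 : ℝ) * (T - s) ^ (-(3 / 5) : ℝ)) ?_ ?_
  · rw [intervalIntegral.integral_const_mul, hval] at h1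
    have h2 := hκ t ⟨le_rfl, ht.2⟩
    have h3 : enstrophy (u t) * (κ ^ (3 / 4 : ℝ) * (5 / 2 * (T - t) ^ (2 / 5 : ℝ))) ^ 2
        ≤ (5 / 2) ^ 2 * κ ^ (5 / 2 : ℝ) := by
      refine (mul_le_mul_of_nonneg_right h2 (sq_nonneg _)).trans (le_of_eq ?_)
      have e1 : (κ ^ (3 / 4 : ℝ)) ^ 2 = κ ^ (3 / 2 : ℝ) := by
        rw [← Real.rpow_natCast, ← Real.rpow_mul hκ0]
        norm_num
      have e2 : ((T - t) ^ (2 / 5 : ℝ)) ^ 2 = (T - t) ^ (4 / 5 : ℝ) := by
        rw [← Real.rpow_natCast, ← Real.rpow_mul hTt.le]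
        norm_num
      have e3 : κ ^ (5 / 2 : ℝ) = κ * κ ^ (3 / 2 : ℝ) := by
        rcases hκ0.eq_or_lt with h0 | h0
        · rw [← h0]; norm_num
        · nth_rewrite 2 [← Real.rpow_one κ]
          rw [← Real.rpow_add h0]
          norm_num
      have e4 : (T - t) ^ (-(4 / 5) : ℝ) * (T - t) ^ (4 / 5 : ℝ) = 1 := by
        rw [← Real.rpow_add hTt]
        norm_num
      rw [mul_pow, mul_pow, e1, e2, e3]
      calc κ * (T - t) ^ (-(4 / 5) : ℝ) * (κ ^ (3 / 2 : ℝ) * ((5 / 2) ^ 2 * (T - t) ^ (4 / 5 : ℝ)))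
          = (5 / 2) ^ 2 * (κ * κ ^ (3 / 2 : ℝ))
            * ((T - t) ^ (-(4 / 5) : ℝ) * (T - t) ^ (4 / 5 : ℝ)) := by ring
        _ = _ := by rw [e4, mul_one]
    refine h1.trans ?_
    calc C * (energy (u 0) ^ (3 / 2 : ℝ) * (enstrophy (u t)
          * (κ ^ (3 / 4 : ℝ) * (5 / 2 * (T - t) ^ (2 / 5 : ℝ))) ^ 2))
        ≤ C * (energy (u 0) ^ (3 / 2 : ℝ) * ((5 / 2) ^ 2 * κ ^ (5 / 2 : ℝ))) := by
          gcongr
      _ = _ := by ring
  · have h2 := (hint.const_mul (κ ^ (3 / 4 : ℝ)))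
    rwa [intervalIntegrable_iff_integrableOn_Ioo_of_le ht.2.le] at h2
  · intro s hs
    have h2 := hκ s ⟨hs.1.le, hs.2⟩
    have hTs : 0 < T - s := sub_pos.2 hs.2
    refine (Real.rpow_le_rpow (enstrophy_nonneg _) h2 (by norm_num)).trans (le_of_eq ?_)
    rw [Real.mul_rpow hκ0 (by positivity), ← Real.rpow_mul hTs.le]
    norm_num

/-- the integrated form -/
theorem loss_int : ∃ C : ℝ, 0 < C ∧ ∀ {T : ℝ} {u : ℝ → V → V} {p : ℝ → V → ℝ}
    (_ : IsSol 0 T u p) (_ : 0 < T) {U : V → V} (_ : WeakLimit T u U) {δ : ℝ} (_ : 0 < δ)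
    (_ : δ ≤ loss u U) {t : ℝ} (_ : t ∈ Ico 0 T)
    (_ : IntegrableOn (fun s => enstrophy (u s) ^ (3 / 4 : ℝ)) (Ioo t T)),
    δ ^ (9 / 4 : ℝ) * (T - t) ≤ C * (energy (u 0) ^ (9 / 8 : ℝ)
      * (∫ s in t..T, enstrophy (u s) ^ (3 / 4 : ℝ)) ^ (5 / 2 : ℝ)) := by
  obtain ⟨C, hC0, hC⟩ := loss_ens
  refine ⟨C ^ (3 / 4 : ℝ), by positivity, fun {T u p} h hT {U} hU {δ} hδ hδl {t} ht hi => ?_⟩
  have hE0 := energy_nonneg (u 0)
  set H : ℝ → ℝ := fun s => enstrophy (u s) ^ (3 / 4 : ℝ) with hH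
  have hH0 : ∀ s, 0 ≤ H s := fun s => Real.rpow_nonneg (enstrophy_nonneg _) _
  set g : ℝ → ℝ := fun s => ∫ r in s..T, H r with hg
  have hHi : IntervalIntegrable H volume t T := by
    rw [intervalIntegrable_iff_integrableOn_Ioo_of_le ht.2.le]
    exact hi
  have hg0 : ∀ s ∈ Icc t T, 0 ≤ g s := fun s hs =>
    intervalIntegral.integral_nonneg hs.2 fun r _ => hH0 r
  have hHc : ContinuousOn H (Ico 0 T) :=
    h.enstrophy_continuousOn.rpow_const fun s _ => Or.inr (by norm_num)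
  -- the pointwise inequality
  set A : ℝ := C ^ (3 / 4 : ℝ) * energy (u 0) ^ (9 / 8 : ℝ) with hA
  have hA0 : 0 ≤ A := by positivity
  have hpt : ∀ s ∈ Ico t T, δ ^ (9 / 4 : ℝ) ≤ A * (H s * g s ^ (3 / 2 : ℝ)) := by
    intro s hs
    have hs' : s ∈ Ico 0 T := ⟨ht.1.trans hs.1, hs.2⟩
    have h1 := hC h hT hU hs' (Y := H) (hi.mono_set (Ioo_subset_Ioo_left hs.1)) fun r _ => le_rfl
    have h2 : δ ^ 3 ≤ C * (energy (u 0) ^ (3 / 2 : ℝ) * (enstrophy (u s) * g s ^ 2)) :=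
      (pow_le_pow_left₀ hδ.le hδl 3).trans h1
    have h3 := Real.rpow_le_rpow (by positivity) h2 (show (0 : ℝ) ≤ 3 / 4 by norm_num)
    have hgs := hg0 s ⟨hs.1, hs.2.le⟩
    have hes := enstrophy_nonneg (u s)
    have e1 : (δ ^ 3) ^ (3 / 4 : ℝ) = δ ^ (9 / 4 : ℝ) := by
      rw [← Real.rpow_natCast, ← Real.rpow_mul hδ.le]
      norm_num
    have e2 : (C * (energy (u 0) ^ (3 / 2 : ℝ) * (enstrophy (u s) * g s ^ 2))) ^ (3 / 4 : ℝ)
        = A * (H s * g s ^ (3 / 2 : ℝ)) := by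
      rw [Real.mul_rpow hC0.le (by positivity), Real.mul_rpow (by positivity) (by positivity),
        Real.mul_rpow hes (by positivity), ← Real.rpow_mul hE0, ← Real.rpow_natCast (g s) 2,
        ← Real.rpow_mul hgs]
      have q1 : (3 / 2 * (3 / 4) : ℝ) = 9 / 8 := by norm_num
      have q2 : (((2 : ℕ) : ℝ) * (3 / 4) : ℝ) = 3 / 2 := by norm_num
      rw [q1, q2]
      ring
    rwa [e1, e2] at h3
  have hApos : 0 < A := by
    rcases hA0.eq_or_lt with h0 | h0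
    · exfalso
      have h1 := hpt t ⟨le_rfl, ht.2⟩
      rw [← h0, zero_mul] at h1
      have h2 : 0 < δ ^ (9 / 4 : ℝ) := by positivity
      linarith
    · exact h0
  set a : ℝ := δ ^ (9 / 4 : ℝ) / A with ha
  -- monotonicity
  have hgd : ∀ s ∈ Ioo t T, HasDerivAt g (-H s) s := by
    intro s hs
    have h0s : s ∈ Ioo 0 T := ⟨ht.1.trans_lt hs.1, hs.2⟩
    have hcs : ContinuousAt H s :=
      hHc.continuousAt (mem_of_superset (Ioo_mem_nhds h0s.1 h0s.2) Ioo_subset_Ico_self)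
    have hmeas : StronglyMeasurableAtFilter H (𝓝 s) := by
      refine (hHc.mono Ioo_subset_Ico_self).stronglyMeasurableAtFilter isOpen_Ioo s h0s
    exact intervalIntegral.integral_hasDerivAt_left
      (hHi.mono_set (by
        rw [uIcc_of_le hs.2.le, uIcc_of_le ht.2.le]
        exact Icc_subset_Icc_left hs.1.le)) hmeas hcs
  have hgc : ContinuousOn g (Icc t T) := by
    have h1 := intervalIntegral.continuousOn_primitive_interval_left (f := H) (μ := volume)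
      (a := t) (b := T) (by
        rw [uIcc_of_le ht.2.le]
        rwa [intervalIntegrable_iff_integrableOn_Icc_of_le ht.2.le] at hHi)
    rwa [uIcc_of_le ht.2.le] at h1
  have hmono : ∀ t' ∈ Ioo t T, a * (t' - t) ≤ g t ^ (5 / 2 : ℝ) := by
    intro t' ht'
    have hanti : AntitoneOn (fun s => g s ^ (5 / 2 : ℝ) + a * s) (Icc t t') := by
      refine antitoneOn_of_hasDerivWithinAt_nonpos (convex_Icc t t')
        (f' := fun s => -H s * (5 / 2) * g s ^ (5 / 2 - 1 : ℝ) + a * 1) ?_ ?_ ?_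
      · refine ContinuousOn.add ?_ (by fun_prop)
        exact (hgc.mono (Icc_subset_Icc_right ht'.2.le)).rpow_const
          fun s _ => Or.inr (by norm_num)
      · intro s hs
        rw [interior_Icc] at hs
        have h1 := (hgd s ⟨hs.1, hs.2.trans ht'.2⟩).rpow_const (p := (5 / 2 : ℝ))
          (Or.inr (by norm_num))
        exact (h1.add ((hasDerivAt_id s).const_mul a)).hasDerivWithinAt
      · intro s hs
        rw [interior_Icc] at hs
        have h1 := hpt s ⟨hs.1.le, hs.2.trans ht'.2⟩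
        have h2 : a ≤ H s * g s ^ (3 / 2 : ℝ) := by
          rw [ha, div_le_iff₀ hApos]
          linarith
        have e : (5 / 2 - 1 : ℝ) = 3 / 2 := by norm_num
        simp only [e]
        have h3 : 0 ≤ H s * g s ^ (3 / 2 : ℝ) := mul_nonneg (hH0 s)
          (Real.rpow_nonneg (hg0 s ⟨hs.1.le, (hs.2.trans ht'.2).le⟩) _)
        linarith
    have h1 := hanti ⟨le_rfl, ht'.1.le⟩ ⟨ht'.1.le, le_rfl⟩ ht'.1.le
    simp only at h1
    have h2 : 0 ≤ g t' ^ (5 / 2 : ℝ) := Real.rpow_nonneg (hg0 t' ⟨ht'.1.le, ht'.2.le⟩) _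
    linarith
  have hfin : a * (T - t) ≤ g t ^ (5 / 2 : ℝ) := by
    have hlim : Tendsto (fun t' : ℝ => a * (t' - t)) (𝓝[<] T) (𝓝 (a * (T - t))) :=
      ((continuous_const.mul (continuous_id.sub continuous_const)).tendsto T).mono_left
        nhdsWithin_le_nhds
    refine le_of_tendsto hlim ?_
    filter_upwards [Ioo_mem_nhdsLT ht.2] with t' ht'
    exact hmono t' ht'
  have h9 : δ ^ (9 / 4 : ℝ) * (T - t) = A * (a * (T - t)) := by
    rw [ha]
    field_simp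
  rw [h9]
  calc A * (a * (T - t)) ≤ A * g t ^ (5 / 2 : ℝ) := mul_le_mul_of_nonneg_left hfin hA0
    _ = _ := by rw [hA]; ring

end

end Pool.Agent.Q62.EL
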