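import Pool.Agent.Q62.EL.Op
import Pool.Agent.Q62.GD.Gal

/-!
The flux of energy through the smoothing operator.
-/

set_option autoImplicit false

open MeasureTheory Set Filter Topology
open scoped ContDiff

namespace Pool.Agent.Q62.EL

open H459R3.NS H459R3.EU Pool.Agent.Q62.GD

theorem KK_per (n : Fin 3 → ℕ) : Per (KK n) := by
  intro i x
  have h1 := KK_eq n (x + Pi.single i 1)
  have h2 := KK_eq n x
  have e : ∑ k ∈ bx n, (mc n k : ℂ) * ee k (x + Pi.single i 1)
      = ∑ k ∈ bx n, (mc n k : ℂ) * ee k x :=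
    Finset.sum_congr rfl fun k _ => by rw [ee_per k i x]
  rw [e, ← h2] at h1
  exact_mod_cast h1

theorem PP_per (N : ℕ) (j : Fin 3) : Per (PP N j) := by
  intro i x
  unfold PP
  rw [KK_per _ i x, KK_per _ i x]

theorem amgm {a b c : ℝ} (ha : 0 ≤ a) (hb : 0 ≤ b) (hc : 0 ≤ c) :
    a * b * c ≤ (a ^ 3 + b ^ 3 + c ^ 3) / 3 := by
  nlinarith [mul_nonneg (add_nonneg (add_nonneg ha hb) hc) (sq_nonneg (a - b)),
    mul_nonneg (add_nonneg (add_nonneg ha hb) hc) (sq_nonneg (b - c)),
    mul_nonneg (add_nonneg (add_nonneg ha hb) hc) (sq_nonneg (a - c))]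

/-- one term of the flux -/
theorem term_le (N : ℕ) {f g : V → ℝ} (hf : SP f) (hg : SP g) (j : Fin 3) :
    |∫ x in cube, g x * (f x * pd j (AA (fun _ => N + 1) f) x)|
      ≤ 2 * Real.pi * Real.sqrt (N + 1)
        * (((∫ x in cube, |g x| ^ 3) + 2 * ∫ x in cube, |f x| ^ 3) / 3) := by
  set Q := PP N j with hQ
  have hQc : Continuous Q := PP_cont N j
  have hQ0 : ∀ z, 0 ≤ Q z := PP_nonneg N j
  have hQp : Per Q := PP_per N j
  set IQ : ℝ := ∫ z in cube, Q z with hIQ
  have hIQ0 : 0 ≤ IQ := integral_nonneg hQ0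
  have hIQ1 : IQ ≤ 2 * Real.pi * Real.sqrt (N + 1) := int_PP N j
  have cf := hf.cont
  have cg := hg.cont
  have hmeas : MeasurableSet cube := measurableSet_Icc
  -- pointwise
  have hp : ∀ x, ‖g x * (f x * pd j (AA (fun _ => N + 1) f) x)‖
      ≤ (|g x| ^ 3 + |f x| ^ 3) / 3 * IQ + ∫ y in cube, Q (x - y) * (|f y| ^ 3 / 3) := by
    intro x
    rw [pd_AA_ker hf, ← integral_const_mul, ← integral_const_mul]
    have e1 : (|g x| ^ 3 + |f x| ^ 3) / 3 * IQ
        = ∫ y in cube, (|g x| ^ 3 + |f x| ^ 3) / 3 * Q (x - y) := by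
      rw [integral_const_mul]
      congr 1
      have h1 := int_shift hQp (-x)
      rw [hIQ, ← h1]
      congr 1
      funext y
      rw [hQ, ← PP_neg]
      congr 1
      abel
    rw [e1, ← integral_add (integrableOn_cube (by fun_prop)) (integrableOn_cube (by fun_prop))]
    refine norm_integral_le_of_norm_le (integrableOn_cube (by fun_prop))
      (Eventually.of_forall fun y => ?_)
    rw [Real.norm_eq_abs, abs_mul, abs_mul, abs_mul]
    have h1 := pd_KK_le N j (x - y)
    have h2 := amgm (abs_nonneg (g x)) (abs_nonneg (f x)) (abs_nonneg (f y))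
    calc |g x| * (|f x| * (|pd j (KK fun _ => N + 1) (x - y)| * |f y|))
        = |pd j (KK fun _ => N + 1) (x - y)| * (|g x| * |f x| * |f y|) := by ring
      _ ≤ Q (x - y) * ((|g x| ^ 3 + |f x| ^ 3 + |f y| ^ 3) / 3) :=
          mul_le_mul h1 h2 (by positivity) (hQ0 _)
      _ = _ := by ring
  -- the double integral
  have hsw : ∫ x in cube, ∫ y in cube, Q (x - y) * (|f y| ^ 3 / 3)
      = IQ * ∫ y in cube, |f y| ^ 3 / 3 := by
    have hint : Integrable (Function.uncurry fun x y : V => Q (x - y) * (|f y| ^ 3 / 3))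
        ((volume.restrict cube).prod (volume.restrict cube)) := by
      rw [Measure.prod_restrict]
      refine ContinuousOn.integrableOn_compact (isCompact_Icc.prod isCompact_Icc) ?_
      have : Continuous (Function.uncurry fun x y : V => Q (x - y) * (|f y| ^ 3 / 3)) := by
        unfold Function.uncurry
        fun_prop
      exact this.continuousOn
    rw [integral_integral_swap hint]
    have e : ∀ y, ∫ x in cube, Q (x - y) * (|f y| ^ 3 / 3) = IQ * (|f y| ^ 3 / 3) := by
      intro y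
      rw [integral_mul_const]
      congr 1
      have h1 := int_shift hQp (-y)
      rw [hIQ, ← h1]
      congr 1
      funext x
      congr 1
      abel
    simp_rw [e]
    rw [integral_const_mul]
  have hcont2 : Continuous fun x : V => ∫ y in cube, Q (x - y) * (|f y| ^ 3 / 3) := by
    have h1 : Continuous (Function.uncurry fun (x : V) (y : V) => Q (x - y) * (|f y| ^ 3 / 3)) := by
      unfold Function.uncurry
      fun_prop
    exact continuous_parametric_integral_of_continuous h1 isCompact_Icc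
  have i1 : IntegrableOn (fun x => (|g x| ^ 3 + |f x| ^ 3) / 3 * IQ) cube :=
    integrableOn_cube (by fun_prop)
  have i2 : IntegrableOn (fun x => ∫ y in cube, Q (x - y) * (|f y| ^ 3 / 3)) cube :=
    integrableOn_cube hcont2
  have i12 : IntegrableOn (fun x => (|g x| ^ 3 + |f x| ^ 3) / 3 * IQ
      + ∫ y in cube, Q (x - y) * (|f y| ^ 3 / 3)) cube := i1.add i2
  have h3 := norm_integral_le_of_norm_le i12 (Eventually.of_forall hp)
  have h4 : ∫ x in cube, ((|g x| ^ 3 + |f x| ^ 3) / 3 * IQ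
      + ∫ y in cube, Q (x - y) * (|f y| ^ 3 / 3))
      = IQ * (((∫ x in cube, |g x| ^ 3) + 2 * ∫ x in cube, |f x| ^ 3) / 3) := by
    rw [integral_add i1 i2, hsw, integral_mul_const, integral_div, integral_div,
      integral_add (integrableOn_cube (by fun_prop)) (integrableOn_cube (by fun_prop))]
    ring
  rw [h4, Real.norm_eq_abs] at h3
  refine h3.trans (mul_le_mul_of_nonneg_right hIQ1 ?_)
  have a1 : 0 ≤ ∫ x in cube, |g x| ^ 3 := integral_nonneg fun _ => by positivity
  have a2 : 0 ≤ ∫ x in cube, |f x| ^ 3 := integral_nonneg fun _ => by positivity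
  positivity

/-- `∑ ∫ |vᵢ|³` -/
noncomputable def cube3 (v : Fin 3 → V → ℝ) : ℝ := ∑ i, ∫ x in cube, |v i x| ^ 3

theorem cube3_nonneg (v : Fin 3 → V → ℝ) : 0 ≤ cube3 v :=
  Finset.sum_nonneg fun _ _ => integral_nonneg fun _ => by positivity

theorem flux_le (N : ℕ) {v : Fin 3 → V → ℝ} (hv : ∀ i, SP (v i)) :
    |∑ i, ∫ x in cube, (∑ j, v j x * pd j (AA (fun _ => N + 1) (v i)) x) * v i x|
      ≤ 6 * Real.pi * Real.sqrt (N + 1) * cube3 v := by
  have e1 : ∀ i, ∫ x in cube, (∑ j, v j x * pd j (AA (fun _ => N + 1) (v i)) x) * v i x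
      = ∑ j, ∫ x in cube, v j x * (v i x * pd j (AA (fun _ => N + 1) (v i)) x) := by
    intro i
    rw [← integral_finsetSum _ fun j _ => ((hv j).mul ((hv i).mul ((sp_AA _).pd j))).int]
    congr 1
    funext x
    rw [Finset.sum_mul]
    exact Finset.sum_congr rfl fun j _ => by ring
  simp_rw [e1]
  refine (Finset.abs_sum_le_sum_abs _ _).trans ?_
  have h1 : ∀ i ∈ (Finset.univ : Finset (Fin 3)),
      |∑ j, ∫ x in cube, v j x * (v i x * pd j (AA (fun _ => N + 1) (v i)) x)|
      ≤ ∑ j, 2 * Real.pi * Real.sqrt (N + 1)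
        * (((∫ x in cube, |v j x| ^ 3) + 2 * ∫ x in cube, |v i x| ^ 3) / 3) := fun i _ =>
    (Finset.abs_sum_le_sum_abs _ _).trans
      (Finset.sum_le_sum fun j _ => term_le N (hv i) (hv j) j)
  refine (Finset.sum_le_sum h1).trans (le_of_eq ?_)
  unfold cube3
  simp only [Fin.sum_univ_three]
  ring

/-! ### Evolution of the smoothed energy -/

noncomputable def cr (k : K3) (x : V) : ℝ := (ee (-k) x).re

noncomputable def ci (k : K3) (x : V) : ℝ := (ee (-k) x).im

theorem sp_cr (k : K3) : SP (cr k) where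
  smooth := Complex.reCLM.contDiff.comp (ee_contDiff (-k))
  per := fun i x => by unfold cr; rw [ee_per (-k) i x]

theorem sp_ci (k : K3) : SP (ci k) where
  smooth := Complex.imCLM.contDiff.comp (ee_contDiff (-k))
  per := fun i x => by unfold ci; rw [ee_per (-k) i x]

theorem fr_re {f : V → ℝ} (hf : IntegrableOn f cube) (k : K3) :
    (fr f k).re = ∫ x in cube, f x * cr k x := by
  have hi := int_ee_mul hf (-k)
  have h := Complex.reCLM.integral_comp_comm hi
  simp only [Complex.reCLM_apply] at h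
  unfold fr fc
  rw [← h]
  congr 1
  funext x
  rw [Complex.re_mul_ofReal]
  unfold cr
  ring

theorem fr_im {f : V → ℝ} (hf : IntegrableOn f cube) (k : K3) :
    (fr f k).im = ∫ x in cube, f x * ci k x := by
  have hi := int_ee_mul hf (-k)
  have h := Complex.imCLM.integral_comp_comm hi
  simp only [Complex.imCLM_apply] at h
  unfold fr fc
  rw [← h]
  congr 1
  funext x
  rw [Complex.im_mul_ofReal]
  unfold ci
  ring

theorem AA_hasDerivAt {T : ℝ} {f : ℝ → V → ℝ}
    (hf : ContDiffOn ℝ ∞ (fun z : ℝ × V => f z.1 z.2) (Ico 0 T ×ˢ univ))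
    (hsp : ∀ s ∈ Ico 0 T, SP (f s)) {t : ℝ} (ht : t ∈ Ioo 0 T) (hd : SP (H459R3.NS.dt f t))
    (n : Fin 3 → ℕ) :
    HasDerivAt (fun s => ∫ x in cube, AA n (f s) x * f s x)
      (2 * ∫ x in cube, AA n (f t) x * H459R3.NS.dt f t x) t := by
  have hI : t ∈ Ico 0 T := ⟨ht.1.le, ht.2⟩
  have h1 : ∀ k : K3, HasDerivAt (fun s => (∫ x in cube, f s x * cr k x) ^ 2
      + (∫ x in cube, f s x * ci k x) ^ 2)
      (2 * ((∫ x in cube, f t x * cr k x) * (∫ x in cube, H459R3.NS.dt f t x * cr k x)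
        + (∫ x in cube, f t x * ci k x) * (∫ x in cube, H459R3.NS.dt f t x * ci k x))) t := by
    intro k
    have a1 : HasDerivAt (fun s => (∫ x in cube, f s x * cr k x) ^ 2) _ t :=
      (dt_pair hf ht (sp_cr k)).pow 2
    have a2 : HasDerivAt (fun s => (∫ x in cube, f s x * ci k x) ^ 2) _ t :=
      (dt_pair hf ht (sp_ci k)).pow 2
    refine (a1.add a2).congr_deriv ?_
    push_cast
    ring
  have h2 : HasDerivAt (fun s => ∑ k ∈ bx n, mc n k * ((∫ x in cube, f s x * cr k x) ^ 2
      + (∫ x in cube, f s x * ci k x) ^ 2)) _ t :=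
    HasDerivAt.fun_sum fun k _ => (h1 k).const_mul (mc n k)
  have e1 : (fun s => ∫ x in cube, AA n (f s) x * f s x) =ᶠ[𝓝 t]
      fun s => ∑ k ∈ bx n, mc n k * ((∫ x in cube, f s x * cr k x) ^ 2
        + (∫ x in cube, f s x * ci k x) ^ 2) := by
    filter_upwards [Ioo_mem_nhds ht.1 ht.2] with s hs
    have hs' := hsp s ⟨hs.1.le, hs.2⟩
    rw [int_AA_mul _ hs'.int]
    refine Finset.sum_congr rfl fun k _ => ?_
    rw [← fr_re hs'.int, ← fr_im hs'.int, Complex.mul_conj, Complex.ofReal_re,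
      Complex.normSq_apply]
    ring
  refine (h2.congr_of_eventuallyEq e1).congr_deriv ?_
  rw [int_AA_mul _ hd.int, Finset.mul_sum]
  refine Finset.sum_congr rfl fun k _ => ?_
  rw [← fr_re (hsp t hI).int, ← fr_im (hsp t hI).int, ← fr_re hd.int, ← fr_im hd.int]
  simp only [Complex.mul_re, Complex.conj_re, Complex.conj_im]
  ring

end Pool.Agent.Q62.EL
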