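import Pool.Agent.Q62.GD.Proj

/-!
The kernel `∏ⱼ c cos(π yⱼ)^(2N)`.
-/

set_option autoImplicit false

open MeasureTheory Set Filter Topology
open scoped ContDiff

namespace Pool.Agent.Q62.EL

open H459R3.NS H459R3.EU Pool.Agent.Q62.GD

/-- the Fourier coefficient -/
noncomputable def bc (N : ℕ) (k : ℤ) : ℝ :=
  ((2 * N).choose (N + k.natAbs) : ℝ) / ((2 * N).choose N : ℝ)

theorem bc_neg (N : ℕ) (k : ℤ) : bc N (-k) = bc N k := by
  unfold bc
  rw [Int.natAbs_neg]

theorem ch_pos (N : ℕ) : (0 : ℝ) < ((2 * N).choose N : ℝ) := by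
  exact_mod_cast Nat.choose_pos (by omega)

theorem bc_nonneg (N : ℕ) (k : ℤ) : 0 ≤ bc N k := by
  unfold bc
  positivity

theorem bc_zero (N : ℕ) : bc N 0 = 1 := by
  unfold bc
  simp only [Int.natAbs_zero, add_zero]
  exact div_self (ch_pos N).ne'

theorem bc_le_one (N : ℕ) (k : ℤ) : bc N k ≤ 1 := by
  unfold bc
  rw [div_le_one (ch_pos N)]
  have h := Nat.choose_le_centralBinom (N + k.natAbs) N
  rw [Nat.centralBinom] at h
  exact_mod_cast h

theorem bc_of_lt {N : ℕ} {k : ℤ} (h : N < k.natAbs) : bc N k = 0 := by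
  unfold bc
  rw [Nat.choose_eq_zero_of_lt (by omega)]
  simp

theorem bc_ge_nat (N k : ℕ) : 1 - (k : ℝ) ^ 2 / (N + 1) ≤
    ((2 * N).choose (N + k) : ℝ) / ((2 * N).choose N : ℝ) := by
  have hN : (0 : ℝ) < N + 1 := by positivity
  induction k with
  | zero =>
    simp only [add_zero]
    rw [div_self (ch_pos N).ne']
    simp
  | succ k ih =>
    set r : ℕ → ℝ := fun k => ((2 * N).choose (N + k) : ℝ) / ((2 * N).choose N : ℝ) with hr
    have hr1 : r k ≤ 1 := by
      have := bc_le_one N k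
      simpa [bc] using this
    have hr0 : 0 ≤ r k := by positivity
    have h1 := Nat.choose_succ_right_eq (2 * N) (N + k)
    have h2 : ((2 * N).choose (N + k + 1) : ℝ) * (N + k + 1)
        = ((2 * N).choose (N + k) : ℝ) * ((2 * N - (N + k) : ℕ) : ℝ) := by exact_mod_cast h1
    have h3 : (N : ℝ) - k ≤ ((2 * N - (N + k) : ℕ) : ℝ) := by
      rcases le_total k N with h | h
      · have : 2 * N - (N + k) = N - k := by omega
        rw [this, Nat.cast_sub h]
      · have h4 : (N : ℝ) ≤ k := by exact_mod_cast h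
        have h5 : (0 : ℝ) ≤ ((2 * N - (N + k) : ℕ) : ℝ) := Nat.cast_nonneg _
        linarith
    have h4 : r k * (N - k) ≤ r (k + 1) * (N + k + 1) := by
      simp only [hr]
      rw [div_mul_eq_mul_div, div_mul_eq_mul_div]
      refine div_le_div_of_nonneg_right ?_ (ch_pos N).le
      rw [← add_assoc, h2]
      exact mul_le_mul_of_nonneg_left h3 (Nat.cast_nonneg _)
    have h5 : (0 : ℝ) < N + k + 1 := by positivity
    have h6 : r k - (2 * k + 1) / (N + 1) ≤ r (k + 1) := by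
      have h7 : r k * (N - k) / (N + k + 1) ≤ r (k + 1) := by
        rwa [div_le_iff₀ h5]
      refine le_trans ?_ h7
      have h8 : r k * (N - k) / (N + k + 1) = r k - r k * (2 * k + 1) / (N + k + 1) := by
        field_simp
        ring
      rw [h8]
      have h9 : r k * (2 * k + 1) / (N + k + 1) ≤ (2 * k + 1) / (N + 1) := by
        rw [div_le_div_iff₀ h5 hN]
        have a1 : r k * (2 * k + 1) ≤ 1 * (2 * (k : ℝ) + 1) :=
          mul_le_mul_of_nonneg_right hr1 (by positivity)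
        have a2 : (N : ℝ) + 1 ≤ N + k + 1 := by
          have : (0 : ℝ) ≤ k := Nat.cast_nonneg k
          linarith
        calc r k * (2 * k + 1) * (N + 1) ≤ 1 * (2 * (k : ℝ) + 1) * (N + k + 1) := by gcongr
          _ = _ := by ring
      linarith
    have h10 : 1 - ((k + 1 : ℕ) : ℝ) ^ 2 / (N + 1) = 1 - (k : ℝ) ^ 2 / (N + 1)
        - (2 * k + 1) / (N + 1) := by
      push_cast
      field_simp
      ring
    rw [h10]
    have h11 : r (k + 1) = ((2 * N).choose (N + (k + 1)) : ℝ) / ((2 * N).choose N : ℝ) := rfl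
    rw [← h11]
    have h12 : 1 - (k : ℝ) ^ 2 / (N + 1) ≤ r k := ih
    linarith

theorem bc_ge (N : ℕ) (k : ℤ) : 1 - (k : ℝ) ^ 2 / (N + 1) ≤ bc N k := by
  have h := bc_ge_nat N k.natAbs
  unfold bc
  have e : ((k.natAbs : ℕ) : ℝ) ^ 2 = (k : ℝ) ^ 2 := by
    rw [Nat.cast_natAbs, Int.cast_abs, sq_abs]
  rwa [e] at h

/-- the one-dimensional kernel -/
noncomputable def kap (N : ℕ) (y : ℝ) : ℝ :=
  4 ^ N / ((2 * N).choose N : ℝ) * Real.cos (Real.pi * y) ^ (2 * N)

theorem kap_nonneg (N : ℕ) (y : ℝ) : 0 ≤ kap N y := by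
  unfold kap
  have := ch_pos N
  rw [pow_mul]
  positivity

theorem kap_neg (N : ℕ) (y : ℝ) : kap N (-y) = kap N y := by
  unfold kap
  rw [mul_neg, Real.cos_neg]

theorem kap_eq (N : ℕ) (y : ℝ) :
    ((kap N y : ℝ) : ℂ) = ∑ k ∈ Finset.Icc (-(N : ℤ)) N,
      (bc N k : ℂ) * Complex.exp (2 * Real.pi * Complex.I * ((k : ℂ) * y)) := by
  set w : ℂ := Complex.exp (Real.pi * y * Complex.I) with hw
  have hc : ((2 : ℂ) * Complex.cos (Real.pi * y)) = w + w⁻¹ := by
    rw [Complex.two_cos, hw, ← Complex.exp_neg]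
    congr 1
    congr 1
    ring
  have h1 : ((kap N y : ℝ) : ℂ) = (((2 * N).choose N : ℝ) : ℂ)⁻¹ * (w + w⁻¹) ^ (2 * N) := by
    rw [← hc]
    unfold kap
    push_cast
    rw [mul_pow, pow_mul (2 : ℂ)]
    norm_num
    ring
  rw [h1, add_pow, Finset.mul_sum]
  refine Finset.sum_bij' (fun j _ => (j : ℤ) - N) (fun k _ => (k + N).toNat) ?_ ?_ ?_ ?_ ?_
  · intro j hj
    rw [Finset.mem_range] at hj
    rw [Finset.mem_Icc]
    omega
  · intro k hk
    rw [Finset.mem_Icc] at hk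
    rw [Finset.mem_range]
    omega
  · intro j hj
    rw [Finset.mem_range] at hj
    omega
  · intro k hk
    rw [Finset.mem_Icc] at hk
    omega
  · intro j hj
    rw [Finset.mem_range] at hj
    have hch : ((2 * N).choose j) = (2 * N).choose (N + ((j : ℤ) - N).natAbs) := by
      rcases le_total N j with h | h
      · congr 1
        omega
      · rw [← Nat.choose_symm (show j ≤ 2 * N by omega)]
        congr 1
        omega
    have hw0 : w ≠ 0 := Complex.exp_ne_zero _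
    have e1 : w ^ j * w⁻¹ ^ (2 * N - j)
        = Complex.exp (2 * Real.pi * Complex.I * ((((j : ℤ) - N : ℤ) : ℂ) * y)) := by
      rw [hw, ← Complex.exp_neg, ← Complex.exp_nat_mul, ← Complex.exp_nat_mul, ← Complex.exp_add]
      congr 1
      rw [Nat.cast_sub (by omega)]
      push_cast
      ring
    rw [e1]
    unfold bc
    rw [← hch]
    push_cast
    have := (ch_pos N).ne'
    field_simp

/-- the coefficient for three dimensions; `n j` is the degree in the variable `j` -/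
noncomputable def mc (n : Fin 3 → ℕ) (k : K3) : ℝ := ∏ j, bc (n j) (k j)

theorem mc_nonneg (n : Fin 3 → ℕ) (k : K3) : 0 ≤ mc n k := Finset.prod_nonneg fun _ _ => bc_nonneg _ _

theorem mc_le_one (n : Fin 3 → ℕ) (k : K3) : mc n k ≤ 1 :=
  Finset.prod_le_one (fun _ _ => bc_nonneg _ _) fun _ _ => bc_le_one _ _

theorem mc_neg (n : Fin 3 → ℕ) (k : K3) : mc n (-k) = mc n k := by
  unfold mc
  simp only [Pi.neg_apply, bc_neg]

theorem mc_zero (n : Fin 3 → ℕ) : mc n 0 = 1 := by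
  unfold mc
  simp [bc_zero]

/-- the frequencies -/
noncomputable def bx (n : Fin 3 → ℕ) : Finset K3 := Fintype.piFinset fun j => Finset.Icc (-(n j : ℤ)) (n j)

theorem bx_neg {n : Fin 3 → ℕ} {k : K3} (hk : k ∈ bx n) : -k ∈ bx n := by
  unfold bx at hk ⊢
  rw [Fintype.mem_piFinset] at hk ⊢
  intro j
  have := hk j
  rw [Finset.mem_Icc] at this ⊢
  simp only [Pi.neg_apply]
  omega

theorem mc_of_notMem {n : Fin 3 → ℕ} {k : K3} (hk : k ∉ bx n) : mc n k = 0 := by
  unfold bx at hk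
  rw [Fintype.mem_piFinset] at hk
  push Not at hk
  obtain ⟨j, hj⟩ := hk
  unfold mc
  refine Finset.prod_eq_zero (Finset.mem_univ j) (bc_of_lt ?_)
  rw [Finset.mem_Icc] at hj
  omega

theorem mc_ge (N : ℕ) (k : K3) : 1 - mc (fun _ => N) k ≤ (∑ j, (k j : ℝ) ^ 2) / (N + 1) := by
  unfold mc
  simp only [Fin.prod_univ_three, Fin.sum_univ_three]
  have a0 := bc_ge N (k 0)
  have a1 := bc_ge N (k 1)
  have a2 := bc_ge N (k 2)
  have b0 := bc_nonneg N (k 0)
  have b1 := bc_nonneg N (k 1)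
  have b2 := bc_nonneg N (k 2)
  have c0 := bc_le_one N (k 0)
  have c1 := bc_le_one N (k 1)
  have c2 := bc_le_one N (k 2)
  have h : 1 - bc N (k 0) * bc N (k 1) * bc N (k 2)
      ≤ (1 - bc N (k 0)) + (1 - bc N (k 1)) + (1 - bc N (k 2)) := by
    nlinarith [mul_nonneg (sub_nonneg.2 c0) (sub_nonneg.2 c1), mul_nonneg b0 b1,
      mul_nonneg (sub_nonneg.2 c2) (sub_nonneg.2 (mul_le_one₀ c0 b1 c1))]
  have e : ((k 0 : ℝ) ^ 2 + (k 1 : ℝ) ^ 2 + (k 2 : ℝ) ^ 2) / (N + 1)
      = (k 0 : ℝ) ^ 2 / (N + 1) + (k 1 : ℝ) ^ 2 / (N + 1) + (k 2 : ℝ) ^ 2 / (N + 1) := by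
    rw [add_div, add_div]
  rw [e]
  linarith

/-- the kernel -/
noncomputable def KK (n : Fin 3 → ℕ) (z : V) : ℝ := ∏ j, kap (n j) (z j)

theorem KK_nonneg (n : Fin 3 → ℕ) (z : V) : 0 ≤ KK n z := Finset.prod_nonneg fun _ _ => kap_nonneg _ _

theorem KK_neg (n : Fin 3 → ℕ) (z : V) : KK n (-z) = KK n z := by
  unfold KK
  simp only [Pi.neg_apply, kap_neg]

theorem KK_eq (n : Fin 3 → ℕ) (z : V) :
    ((KK n z : ℝ) : ℂ) = ∑ k ∈ bx n, (mc n k : ℂ) * ee k z := by
  unfold KK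
  rw [Complex.ofReal_prod]
  simp_rw [kap_eq]
  rw [Finset.prod_univ_sum]
  refine Finset.sum_congr rfl fun k _ => ?_
  rw [Finset.prod_mul_distrib, ← Complex.exp_sum]
  unfold mc ee ph
  push_cast
  rw [Finset.mul_sum]

theorem KK_cont (n : Fin 3 → ℕ) : Continuous (KK n) := by
  unfold KK kap
  fun_prop

theorem int_KK (n : Fin 3 → ℕ) : ∫ x in cube, KK n x = 1 := by
  have h : ((∫ x in cube, KK n x : ℝ) : ℂ) = 1 := by
    rw [← integral_complex_ofReal]
    simp_rw [KK_eq]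
    rw [integral_finsetSum _ fun k _ => (integrableOn_cube (ee_continuous _)).const_mul _]
    simp_rw [integral_const_mul, integral_ee]
    simp only [mul_ite, mul_one, mul_zero, Finset.sum_ite_eq']
    rw [if_pos, mc_zero]
    · simp
    · unfold bx
      rw [Fintype.mem_piFinset]
      intro j
      rw [Finset.mem_Icc]
      simp
  exact_mod_cast h

/-- derivative of the one-dimensional kernel -/
theorem kap_deriv (N : ℕ) (y : ℝ) :
    HasDerivAt (kap N) (4 ^ N / ((2 * N).choose N : ℝ) * ((2 * N : ℕ) *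
      Real.cos (Real.pi * y) ^ (2 * N - 1) * (-Real.sin (Real.pi * y) * Real.pi))) y := by
  have h1 : HasDerivAt (fun y : ℝ => Real.pi * y) Real.pi y := by
    simpa using (hasDerivAt_id y).const_mul Real.pi
  have h2 := (h1.cos.pow (2 * N)).const_mul (4 ^ N / ((2 * N).choose N : ℝ))
  exact h2

theorem ratio (N : ℕ) : (4 ^ (N + 1) / ((2 * (N + 1)).choose (N + 1) : ℝ))
    = (2 * (N + 1) : ℝ) / (2 * N + 1) * (4 ^ N / ((2 * N).choose N : ℝ)) := by
  have h := Nat.succ_mul_centralBinom_succ N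
  rw [Nat.centralBinom, Nat.centralBinom] at h
  have h1 : ((N : ℝ) + 1) * ((2 * (N + 1)).choose (N + 1) : ℝ)
      = 2 * (2 * N + 1) * ((2 * N).choose N : ℝ) := by exact_mod_cast h
  have p1 := ch_pos N
  have p2 := ch_pos (N + 1)
  rw [div_mul_div_comm, div_eq_div_iff p2.ne' (by positivity)]
  rw [pow_succ]
  linear_combination (-(2 : ℝ)) * 4 ^ N * h1

/-- pointwise bound of the derivative -/
theorem kap_deriv_le (N : ℕ) (y : ℝ) :
    |4 ^ (N + 1) / ((2 * (N + 1)).choose (N + 1) : ℝ) * ((2 * (N + 1) : ℕ) *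
      Real.cos (Real.pi * y) ^ (2 * (N + 1) - 1) * (-Real.sin (Real.pi * y) * Real.pi))|
    ≤ 2 * Real.pi * (N + 1) * ((1 / (2 * Real.sqrt (N + 1))) * kap (N + 1) y
      + (Real.sqrt (N + 1) / 2) * ((2 * (N + 1) : ℝ) / (2 * N + 1) * kap N y - kap (N + 1) y)) := by
  set c : ℝ := Real.cos (Real.pi * y) with hc
  set s : ℝ := Real.sin (Real.pi * y) with hs
  set a : ℝ := 4 ^ (N + 1) / ((2 * (N + 1)).choose (N + 1) : ℝ) with ha
  have ha0 : 0 < a := by
    have := ch_pos (N + 1)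
    positivity
  have hcs : s ^ 2 + c ^ 2 = 1 := Real.sin_sq_add_cos_sq _
  set q : ℝ := Real.sqrt (N + 1) with hq
  have hq0 : 0 < q := Real.sqrt_pos.2 (by positivity)
  have e1 : kap (N + 1) y = a * (c ^ (2 * N) * c ^ 2) := by
    unfold kap
    rw [← pow_add, ← ha, ← hc, show 2 * (N + 1) = 2 * N + 2 by ring]
  have e2 : (2 * (N + 1) : ℝ) / (2 * N + 1) * kap N y = a * c ^ (2 * N) := by
    unfold kap
    rw [ha, ratio]
    ring
  have e3 : 2 * (N + 1) - 1 = 2 * N + 1 := by omega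
  have hcN : 0 ≤ c ^ (2 * N) := by
    rw [pow_mul]
    positivity
  rw [e1, e2, e3, abs_mul, abs_mul, abs_mul, abs_mul, abs_of_pos ha0, abs_of_pos Real.pi_pos, abs_neg,
    pow_succ, abs_mul, abs_of_nonneg hcN]
  have e4 : |((2 * (N + 1) : ℕ) : ℝ)| = 2 * (N + 1) := by
    rw [abs_of_nonneg (Nat.cast_nonneg _)]
    push_cast
    ring
  rw [e4]
  have h1 : |c| * |s| ≤ 1 / (2 * q) * c ^ 2 + q / 2 * s ^ 2 := by
    have h2 : 0 ≤ (|c| / q - |s|) ^ 2 := sq_nonneg _
    have h3 : (|c| / q - |s|) ^ 2 = c ^ 2 / q ^ 2 - 2 * (|c| * |s|) / q + s ^ 2 := by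
      rw [sub_sq, div_pow, sq_abs, sq_abs]
      ring
    rw [h3] at h2
    have h4 : 0 ≤ q / 2 * (c ^ 2 / q ^ 2 - 2 * (|c| * |s|) / q + s ^ 2) := by positivity
    have h5 : q / 2 * (c ^ 2 / q ^ 2 - 2 * (|c| * |s|) / q + s ^ 2)
        = 1 / (2 * q) * c ^ 2 - |c| * |s| + q / 2 * s ^ 2 := by
      field_simp
    linarith
  have hs2 : s ^ 2 = 1 - c ^ 2 := by linarith
  rw [hs2] at h1
  calc a * (2 * (N + 1) * (c ^ (2 * N) * |c|) * (|s| * Real.pi))
      = 2 * Real.pi * (N + 1) * a * c ^ (2 * N) * (|c| * |s|) := by ring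
    _ ≤ 2 * Real.pi * (N + 1) * a * c ^ (2 * N) * (1 / (2 * q) * c ^ 2 + q / 2 * (1 - c ^ 2)) := by
        have := Real.pi_pos
        gcongr
    _ = _ := by ring

end Pool.Agent.Q62.EL
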