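import Pool.Agent.Q62.EL.Ker

/-!
The derivative of the kernel.
-/

set_option autoImplicit false

open MeasureTheory Set Filter Topology
open scoped ContDiff

namespace Pool.Agent.Q62.EL

open H459R3.NS H459R3.EU Pool.Agent.Q62.GD

theorem kap_contDiff (N : ℕ) : ContDiff ℝ ∞ (kap N) := by
  unfold kap
  exact contDiff_const.mul ((Real.contDiff_cos.comp (contDiff_const.mul contDiff_id)).pow _)

theorem KK_contDiff (n : Fin 3 → ℕ) : ContDiff ℝ ∞ (KK n) := by
  unfold KK
  exact contDiff_prod fun j _ => (kap_contDiff (n j)).comp (contDiff_apply ℝ ℝ j)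

theorem KK_split (n : Fin 3 → ℕ) (j : Fin 3) (z : V) :
    KK n z = kap (n j) (z j) * ∏ i ∈ Finset.univ.erase j, kap (n i) (z i) := by
  unfold KK
  rw [Finset.mul_prod_erase Finset.univ (fun i => kap (n i) (z i)) (Finset.mem_univ j)]

theorem pd_KK (n : Fin 3 → ℕ) (j : Fin 3) (z : V) :
    pd j (KK n) z = deriv (kap (n j)) (z j) * ∏ i ∈ Finset.univ.erase j, kap (n i) (z i) := by
  have h1 : HasFDerivAt (KK n) (fderiv ℝ (KK n) z) z :=
    ((KK_contDiff n).differentiable (by simp) z).hasFDerivAt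
  have h2 : HasDerivAt (fun s : ℝ => z + s • (Pi.single j (1 : ℝ) : V)) (Pi.single j (1 : ℝ)) 0 := by
    simpa using ((hasDerivAt_id (0 : ℝ)).smul_const (Pi.single j (1 : ℝ) : V)).const_add z
  have h3 : HasDerivAt (fun s : ℝ => KK n (z + s • (Pi.single j (1 : ℝ) : V)))
      (fderiv ℝ (KK n) z (Pi.single j 1)) 0 := by
    have h1' : HasFDerivAt (KK n) (fderiv ℝ (KK n) z) (z + (0 : ℝ) • (Pi.single j (1 : ℝ) : V)) := by
      rw [zero_smul, add_zero]
      exact h1
    have h3' := HasFDerivAt.comp_hasDerivAt (0 : ℝ) h1' h2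
    exact h3'
  have h4 : (fun s : ℝ => KK n (z + s • (Pi.single j (1 : ℝ) : V)))
      = fun s => kap (n j) (z j + s) * ∏ i ∈ Finset.univ.erase j, kap (n i) (z i) := by
    funext s
    rw [KK_split n j]
    congr 1
    · simp
    · refine Finset.prod_congr rfl fun i hi => ?_
      have : i ≠ j := Finset.ne_of_mem_erase hi
      simp [this]
  have h5 : HasDerivAt (fun s : ℝ => kap (n j) (z j + s)) (deriv (kap (n j)) (z j)) 0 := by
    have h6 : HasDerivAt (kap (n j)) (deriv (kap (n j)) (z j)) (z j + 0) := by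
      rw [add_zero]
      exact ((kap_contDiff (n j)).differentiable (by simp) _).hasDerivAt
    have h7 : HasDerivAt (fun s : ℝ => z j + s) 1 0 := (hasDerivAt_id (0 : ℝ)).const_add _
    have h8 := h6.comp (0 : ℝ) h7
    rw [mul_one] at h8
    exact h8
  have h6 := h5.mul_const (∏ i ∈ Finset.univ.erase j, kap (n i) (z i))
  rw [h4] at h3
  exact h3.unique h6

/-- majorant of the derivative -/
noncomputable def PP (N : ℕ) (j : Fin 3) (z : V) : ℝ :=
  2 * Real.pi * (N + 1) * ((1 / (2 * Real.sqrt (N + 1))) * KK (fun _ => N + 1) z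
    + (Real.sqrt (N + 1) / 2) * ((2 * (N + 1) : ℝ) / (2 * N + 1)
      * KK (Function.update (fun _ => N + 1) j N) z - KK (fun _ => N + 1) z))

theorem PP_cont (N : ℕ) (j : Fin 3) : Continuous (PP N j) := by
  unfold PP
  have h1 := KK_cont (fun _ => N + 1)
  have h2 := KK_cont (Function.update (fun _ => N + 1) j N)
  fun_prop

theorem PP_neg (N : ℕ) (j : Fin 3) (z : V) : PP N j (-z) = PP N j z := by
  unfold PP
  rw [KK_neg, KK_neg]

theorem pd_KK_le (N : ℕ) (j : Fin 3) (z : V) : |pd j (KK (fun _ => N + 1)) z| ≤ PP N j z := by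
  rw [pd_KK, abs_mul]
  have hE : 0 ≤ ∏ i ∈ Finset.univ.erase j, kap (N + 1) (z i) :=
    Finset.prod_nonneg fun _ _ => kap_nonneg _ _
  rw [abs_of_nonneg hE, (kap_deriv (N + 1) (z j)).deriv]
  have h1 := mul_le_mul_of_nonneg_right (kap_deriv_le N (z j)) hE
  refine h1.trans (le_of_eq ?_)
  unfold PP
  rw [KK_split _ j, KK_split (Function.update (fun _ => N + 1) j N) j]
  have e : ∏ i ∈ Finset.univ.erase j, kap (Function.update (fun _ => N + 1) j N i) (z i)
      = ∏ i ∈ Finset.univ.erase j, kap (N + 1) (z i) := by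
    refine Finset.prod_congr rfl fun i hi => ?_
    rw [Function.update_of_ne (Finset.ne_of_mem_erase hi)]
  rw [e, Function.update_self]
  ring

theorem PP_nonneg (N : ℕ) (j : Fin 3) (z : V) : 0 ≤ PP N j z := (abs_nonneg _).trans (pd_KK_le N j z)

theorem int_PP (N : ℕ) (j : Fin 3) : ∫ z in cube, PP N j z ≤ 2 * Real.pi * Real.sqrt (N + 1) := by
  set q : ℝ := Real.sqrt (N + 1) with hq
  have hq0 : 0 < q := Real.sqrt_pos.2 (by positivity)
  have hq2 : q ^ 2 = N + 1 := Real.sq_sqrt (by positivity)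
  have e1 : ∀ z, PP N j z = 2 * Real.pi * (N + 1) * (1 / (2 * q) - q / 2) * KK (fun _ => N + 1) z
      + 2 * Real.pi * (N + 1) * (q / 2) * ((2 * (N + 1) : ℝ) / (2 * N + 1))
        * KK (Function.update (fun _ => N + 1) j N) z := by
    intro z
    unfold PP
    ring
  simp_rw [e1]
  have i1 : IntegrableOn (fun z => 2 * Real.pi * (N + 1) * (1 / (2 * q) - q / 2)
      * KK (fun _ => N + 1) z) cube := (integrableOn_cube (KK_cont _)).const_mul _
  have i2 : IntegrableOn (fun z => 2 * Real.pi * (N + 1) * (q / 2) * ((2 * (N + 1) : ℝ) / (2 * N + 1))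
      * KK (Function.update (fun _ => N + 1) j N) z) cube :=
    (integrableOn_cube (KK_cont _)).const_mul _
  rw [integral_add i1 i2, integral_const_mul, integral_const_mul, int_KK, int_KK, mul_one, mul_one]
  have hN : (0 : ℝ) ≤ N := Nat.cast_nonneg N
  have h1 : q / 2 * ((2 * (N + 1) : ℝ) / (2 * N + 1)) ≤ 1 / (2 * q) + q / 2 := by
    have e : q / 2 * ((2 * (N + 1) : ℝ) / (2 * N + 1)) = q / 2 + q / 2 * (1 / (2 * N + 1)) := by
      field_simp
      ring
    rw [e]
    have h2 : q / 2 * (1 / (2 * N + 1)) ≤ 1 / (2 * q) := by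
      rw [div_mul_div_comm, div_le_div_iff₀ (by positivity) (by positivity)]
      nlinarith
    linarith
  have hpi := Real.pi_pos
  calc 2 * Real.pi * (N + 1) * (1 / (2 * q) - q / 2)
        + 2 * Real.pi * (N + 1) * (q / 2) * ((2 * (N + 1) : ℝ) / (2 * N + 1))
      = 2 * Real.pi * (N + 1) * ((1 / (2 * q) - q / 2)
        + q / 2 * ((2 * (N + 1) : ℝ) / (2 * N + 1))) := by ring
    _ ≤ 2 * Real.pi * (N + 1) * ((1 / (2 * q) - q / 2) + (1 / (2 * q) + q / 2)) := by gcongr
    _ = 2 * Real.pi * ((N + 1) / q) := by field_simp; ring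
    _ = 2 * Real.pi * q := by rw [← hq2]; field_simp

/-! ### Translations -/

attribute [local instance] instMeasureSpaceUnitAddCircle

theorem int_shift {f : V → ℝ} (hp : Per f) (a : V) : ∫ x in cube, f (a + x) = ∫ x in cube, f x := by
  set F : UnitAddTorus (Fin 3) → ℝ := fun t => f (Function.surjInv cov_surj t) with hF
  have e1 : ∀ x, F (cov x) = f x := fun x => hp.eq_of_cov (Function.surjInv_eq cov_surj (cov x))
  have e2 : ∀ x, F (cov a + cov x) = f (a + x) := by
    intro x
    have : cov a + cov x = cov (a + x) := by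
      funext i
      simp [cov]
    rw [this, e1]
  have h1 := integral_torus (fun t => F (cov a + t))
  have h2 := integral_torus F
  have : Measure.IsAddHaarMeasure (volume : Measure UnitAddCircle) :=
    inferInstanceAs (Measure.IsAddHaarMeasure AddCircle.haarAddCircle)
  have h0 : Measure.IsAddLeftInvariant (volume : Measure (UnitAddTorus (Fin 3))) :=
    inferInstanceAs (Measure.IsAddLeftInvariant
      (Measure.pi fun _ : Fin 3 => (volume : Measure UnitAddCircle)))
  rw [integral_add_left_eq_self] at h1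
  rw [h1] at h2
  simp_rw [e1, e2] at h2
  exact h2

end Pool.Agent.Q62.EL
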