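import Pool.Agent.Q62.EL.Flux
import Pool.Agent.Q62.GD.Boot

/-!
The energy lost at a singular time.
-/

set_option autoImplicit false

open MeasureTheory Set Filter Topology
open scoped ContDiff

namespace Pool.Agent.Q62.EL

open H459R3.NS H459R3.EU Pool.Agent.Q62.GD

/-- `U` is the weak limit in `L²` of `u(t)` as `t → T`. -/
structure WeakLimit (T : ℝ) (u : ℝ → V → V) (U : V → V) : Prop where
  mem : ∀ i, MemLp (fun x => U x i) 2 (volume.restrict cube)
  lim : ∀ φ : V → ℝ, SP φ → ∀ i, Tendsto (fun t => ∫ x in cube, u t x i * φ x) (𝓝[<] T)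
    (𝓝 (∫ x in cube, U x i * φ x))

/-- The energy lost at the time `T`: the energy at the time `0` minus the energy of `U`. -/
noncomputable def loss (u : ℝ → V → V) (U : V → V) : ℝ :=
  energy (u 0) - ∑ i, ∫ x in cube, U x i ^ 2

theorem WeakLimit.int {T : ℝ} {u : ℝ → V → V} {U : V → V} (h : WeakLimit T u U) (i : Fin 3) :
    IntegrableOn (fun x => U x i) cube := by
  have := cube_finite
  exact (h.mem i).integrable (by norm_num)

theorem WeakLimit.sq {T : ℝ} {u : ℝ → V → V} {U : V → V} (h : WeakLimit T u U) (i : Fin 3) :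
    IntegrableOn (fun x => U x i ^ 2) cube := (h.mem i).integrable_sq

theorem const_of_deriv {T : ℝ} {g : ℝ → ℝ} (hc : ContinuousOn g (Ico 0 T))
    (hd : ∀ t ∈ Ioo 0 T, HasDerivAt g 0 t) {t : ℝ} (ht : t ∈ Ico 0 T) : g t = g 0 := by
  have h1 : AntitoneOn g (Icc 0 t) := by
    refine antitoneOn_of_hasDerivWithinAt_nonpos (convex_Icc 0 t) (f' := fun _ => 0)
      (hc.mono (Icc_subset_Ico_right ht.2)) ?_ fun _ _ => le_rfl
    intro s hs
    rw [interior_Icc] at hs
    exact (hd s ⟨hs.1, hs.2.trans ht.2⟩).hasDerivWithinAt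
  have h2 : MonotoneOn g (Icc 0 t) := by
    refine monotoneOn_of_hasDerivWithinAt_nonneg (convex_Icc 0 t) (f' := fun _ => 0)
      (hc.mono (Icc_subset_Ico_right ht.2)) ?_ fun _ _ => le_rfl
    intro s hs
    rw [interior_Icc] at hs
    exact (hd s ⟨hs.1, hs.2.trans ht.2⟩).hasDerivWithinAt
  exact le_antisymm (h1 ⟨le_rfl, ht.1⟩ ⟨ht.1, le_rfl⟩ ht.1) (h2 ⟨le_rfl, ht.1⟩ ⟨ht.1, le_rfl⟩ ht.1)

section

variable {T : ℝ} {u : ℝ → V → V} {p : ℝ → V → ℝ}

theorem energy_eq (h : IsSol 0 T u p) {t : ℝ} (ht : t ∈ Ico 0 T) : energy (u t) = energy (u 0) :=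
  const_of_deriv h.energy_continuousOn (fun s hs => by
    have := h.energy_hasDerivAt hs
    simpa using this) ht

theorem sp_one : SP (fun _ : V => (1 : ℝ)) := ⟨contDiff_const, fun _ _ => rfl⟩

theorem mom_eq (h : IsSol 0 T u p) (i : Fin 3) {t : ℝ} (ht : t ∈ Ico 0 T) :
    ∫ x in cube, u t x i = ∫ x in cube, u 0 x i := by
  have hc : ContinuousOn (fun s => ∫ x in cube, u s x i) (Ico 0 T) :=
    continuousOn_int (F := fun s x => u s x i) (h.smooth_c i).continuousOn
  refine const_of_deriv hc (fun s hs => ?_) ht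
  have hI : s ∈ Ico 0 T := ⟨hs.1.le, hs.2⟩
  have h1 := dt_pair (f := fun s y => u s y i) (h.smooth_c i) hs sp_one
  have e1 : (fun s => ∫ x in cube, u s x i * (fun _ => (1 : ℝ)) x)
      = fun s => ∫ x in cube, u s x i := by
    funext s; simp
  rw [e1] at h1
  refine h1.congr_deriv ?_
  have hsp : ∀ i, SP (fun y => u s y i) := fun i => h.sp hI i
  have e2 : ∀ x, H459R3.NS.dt (fun s y => u s y i) s x * (fun _ => (1 : ℝ)) x
      = -(H459R3.NS.conv (fun i y => u s y i) i x) - pd i (p s) x := by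
    intro x
    rw [h.dt_eq hs]
    ring
  simp_rw [e2]
  have hcv := sp_conv hsp i
  have i1 : IntegrableOn (fun x => -(H459R3.NS.conv (fun i y => u s y i) i x)) cube := hcv.int.neg
  have i2 : IntegrableOn (fun x => pd i (p s) x) cube := ((h.sp_p hI).pd i).int
  rw [integral_sub i1 i2, integral_neg]
  have h2 := transport_mul hsp (h.divfree s hI) (hsp i) sp_one
  have e3 : ∀ n : Fin 3, ∀ x : V, pd n (fun _ : V => (1 : ℝ)) x = 0 := by
    intro n x
    unfold pd
    simp
  simp only [e3, mul_zero, Finset.sum_const_zero, zero_mul, integral_zero, add_zero, mul_one] at h2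
  have e4 : ∫ x in cube, H459R3.NS.conv (fun i y => u s y i) i x = 0 := h2
  have e5 : ∫ x in cube, pd i (p s) x = 0 :=
    integral_pd ((h.sp_p hI).smooth.of_le (by norm_cast)) (h.sp_p hI).per i
  rw [e4, e5]
  ring

/-- the smoothed energy in a moving frame -/
noncomputable def GG (n : Fin 3 → ℕ) (m : V) (u : ℝ → V → V) (s : ℝ) : ℝ :=
  ∑ i, ∫ x in cube, AA n (fun y => u s y i - m i) x * (u s x i - m i)

theorem sp_sub_const {f : V → ℝ} (hf : SP f) (c : ℝ) : SP (fun y => f y - c) :=
  SP.sub hf ⟨contDiff_const, fun _ _ => rfl⟩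

theorem pd_sub_const (f : V → ℝ) (c : ℝ) (j : Fin 3) : pd j (fun y => f y - c) = pd j f := by
  funext x
  unfold pd
  rw [fderiv_sub_const]

theorem GG_deriv (h : IsSol 0 T u p) (m : V) (N : ℕ) {t : ℝ} (ht : t ∈ Ioo 0 T) :
    ∃ D : ℝ, HasDerivAt (GG (fun _ => N + 1) m u) D t ∧
      |D| ≤ 12 * Real.pi * Real.sqrt (N + 1) * cube3 (fun i y => u t y i - m i) := by
  set n : Fin 3 → ℕ := fun _ => N + 1 with hn
  have hI : t ∈ Ico 0 T := ⟨ht.1.le, ht.2⟩
  set v : Fin 3 → V → ℝ := fun i y => u t y i - m i with hv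
  have hsu : ∀ i, SP (fun y => u t y i) := fun i => h.sp hI i
  have hsv : ∀ i, SP (v i) := fun i => sp_sub_const (hsu i) (m i)
  have hpd : ∀ i j, pd j (v i) = pd j (fun y => u t y i) := fun i j => pd_sub_const _ _ _
  have hdv : ∀ x, ∑ i, pd i (v i) x = 0 := by
    intro x
    simp_rw [hpd]
    exact h.divfree t hI x
  have hfs : ∀ i, ContDiffOn ℝ ∞ (fun z : ℝ × V => (fun s y => u s y i - m i) z.1 z.2)
      (Ico 0 T ×ˢ univ) := fun i => (h.smooth_c i).sub contDiffOn_const
  have hdt : ∀ i, H459R3.NS.dt (fun s y => u s y i - m i) t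
      = H459R3.NS.dt (fun s y => u s y i) t := by
    intro i
    funext x
    unfold H459R3.NS.dt
    exact deriv_sub_const _
  have hsd : ∀ i, SP (H459R3.NS.dt (fun s y => u s y i - m i) t) := fun i => by
    rw [hdt]
    exact h.sp_dt ht i
  have h1 : HasDerivAt (GG n m u) (∑ i, 2 * ∫ x in cube, AA n (v i) x
      * H459R3.NS.dt (fun s y => u s y i - m i) t x) t := by
    unfold GG
    exact HasDerivAt.fun_sum fun i _ => AA_hasDerivAt (f := fun s y => u s y i - m i) (hfs i)
      (fun s hs => sp_sub_const (h.sp hs i) (m i)) ht (hsd i) n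
  refine ⟨_, h1, ?_⟩
  -- the terms
  have e1 : ∀ i, ∫ x in cube, AA n (v i) x * H459R3.NS.dt (fun s y => u s y i - m i) t x
      = (∫ x in cube, (∑ j, v j x * pd j (AA n (v i)) x) * v i x)
        - ∫ x in cube, AA n (v i) x * pd i (p t) x := by
    intro i
    rw [hdt]
    have hA := sp_AA (n := n) (v i)
    have e2 : ∀ x, AA n (v i) x * H459R3.NS.dt (fun s y => u s y i) t x
        = -((∑ j, v j x * pd j (v i) x) * AA n (v i) x)
          - (∑ j, m j * (pd j (v i) x * AA n (v i) x)) - AA n (v i) x * pd i (p t) x := by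
      intro x
      rw [h.dt_eq ht]
      have q1 : ∀ j, pd j (v i) x = pd j (fun y => u t y i) x := fun j => by rw [hpd]
      have q2 : ∀ j, v j x = u t x j - m j := fun _ => rfl
      unfold H459R3.NS.conv
      simp only [q1, q2, Fin.sum_univ_three]
      generalize AA n (v i) x = A
      ring
    simp_rw [e2]
    have s1 : SP (fun x => (∑ j, v j x * pd j (v i) x) * AA n (v i) x) :=
      (SP.sum fun j _ => (hsv j).mul ((hsv i).pd j)).mul hA
    have s2 : ∀ j, SP (fun x => pd j (v i) x * AA n (v i) x) := fun j => ((hsv i).pd j).mul hA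
    have s3 : SP (fun x => AA n (v i) x * pd i (p t) x) := hA.mul ((h.sp_p hI).pd i)
    have i1 : IntegrableOn (fun x => -((∑ j, v j x * pd j (v i) x) * AA n (v i) x)) cube :=
      s1.int.neg
    have i2 : ∀ j, IntegrableOn (fun x => m j * (pd j (v i) x * AA n (v i) x)) cube := fun j =>
      (s2 j).int.const_mul _
    have i3 : IntegrableOn (fun x => ∑ j, m j * (pd j (v i) x * AA n (v i) x)) cube :=
      integrable_finsetSum _ fun j _ => i2 j
    have i4 : IntegrableOn (fun x => -((∑ j, v j x * pd j (v i) x) * AA n (v i) x)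
      - ∑ j, m j * (pd j (v i) x * AA n (v i) x)) cube := i1.sub i3
    rw [integral_sub i4 s3.int, integral_sub i1 i3, integral_neg,
      integral_finsetSum _ fun j _ => i2 j]
    have z1 : ∑ j, ∫ x in cube, m j * (pd j (v i) x * AA n (v i) x) = 0 := by
      refine Finset.sum_eq_zero fun j _ => ?_
      rw [integral_const_mul, int_pd_AA_zero (hsv i), mul_zero]
    have z2 := transport_mul hsv hdv (hsv i) hA
    rw [z1]
    linarith
  have e3 : ∑ i, 2 * ∫ x in cube, AA n (v i) x * H459R3.NS.dt (fun s y => u s y i - m i) t x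
      = 2 * ∑ i, ∫ x in cube, (∑ j, v j x * pd j (AA n (v i)) x) * v i x := by
    rw [← Finset.mul_sum]
    simp_rw [e1]
    rw [Finset.sum_sub_distrib, int_press (v := fun i => AA n (v i)) (fun i => sp_AA _)
      (div_AA hsv hdv) (h.sp_p hI), sub_zero]
  rw [e3, abs_mul, abs_two]
  have h2 := flux_le N hsv
  calc 2 * |∑ i, ∫ x in cube, (∑ j, v j x * pd j (AA n (v i)) x) * v i x|
      ≤ 2 * (6 * Real.pi * Real.sqrt (N + 1) * cube3 v) := by
        refine mul_le_mul_of_nonneg_left h2 (by norm_num)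
    _ = _ := by ring

theorem GG_eq {n : Fin 3 → ℕ} {m : V} {s : ℝ} (hs : ∀ i, SP (fun y => u s y i)) :
    GG n m u s = ∑ i, ∑ k ∈ bx n, mc n k * ((∫ x in cube, (u s x i - m i) * cr k x) ^ 2
      + (∫ x in cube, (u s x i - m i) * ci k x) ^ 2) := by
  unfold GG
  refine Finset.sum_congr rfl fun i _ => ?_
  have hs' := sp_sub_const (hs i) (m i)
  have h1 := int_AA_mul (n := n) (fun y => u s y i - m i) hs'.int
  rw [h1]
  refine Finset.sum_congr rfl fun k _ => ?_
  rw [← fr_re hs'.int, ← fr_im hs'.int, Complex.mul_conj, Complex.ofReal_re,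
    Complex.normSq_apply]
  ring

theorem GG_cont (h : IsSol 0 T u p) (n : Fin 3 → ℕ) (m : V) :
    ContinuousOn (GG n m u) (Ico 0 T) := by
  have h1 : ContinuousOn (fun s => ∑ i, ∑ k ∈ bx n, mc n k *
      ((∫ x in cube, (u s x i - m i) * cr k x) ^ 2
      + (∫ x in cube, (u s x i - m i) * ci k x) ^ 2)) (Ico 0 T) := by
    refine continuousOn_finsetSum _ fun i _ => continuousOn_finsetSum _ fun k _ => ?_
    have a : ∀ φ : V → ℝ, Continuous φ →
        ContinuousOn (fun s => ∫ x in cube, (u s x i - m i) * φ x) (Ico 0 T) := by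
      intro φ hφ
      refine continuousOn_int (F := fun s x => (u s x i - m i) * φ x) ?_
      exact ((h.smooth_c i).continuousOn.sub continuousOn_const).mul
        (hφ.comp_continuousOn continuousOn_snd)
    exact continuousOn_const.mul (((a _ (sp_cr k).cont).pow 2).add ((a _ (sp_ci k).cont).pow 2))
  exact h1.congr fun s hs => GG_eq fun i => h.sp hs i

theorem GG_lim (h : IsSol 0 T u p) (hT : 0 < T) {U : V → V} (hU : WeakLimit T u U)
    (n : Fin 3 → ℕ) (m : V) :
    Tendsto (GG n m u) (𝓝[<] T) (𝓝 (∑ i, ∑ k ∈ bx n, mc n k *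
      (fr (fun y => U y i - m i) k * (starRingEnd ℂ) (fr (fun y => U y i - m i) k)).re)) := by
  have hiU : ∀ i, IntegrableOn (fun y => U y i - m i) cube := fun i =>
    (hU.int i).sub (integrableOn_cube continuous_const)
  have hlim : ∀ i, ∀ φ : V → ℝ, SP φ → Tendsto (fun s => ∫ x in cube, (u s x i - m i) * φ x)
      (𝓝[<] T) (𝓝 (∫ x in cube, (U x i - m i) * φ x)) := by
    intro i φ hφ
    have hbd : IntegrableOn (fun x => U x i * φ x) cube := by
      obtain ⟨c, hc⟩ := (isCompact_Icc (a := (0 : V)) (b := 1)).exists_bound_of_continuousOn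
        hφ.cont.continuousOn
      refine (hU.int i).mul_bdd (c := c) hφ.cont.aestronglyMeasurable ?_
      exact (ae_restrict_iff' measurableSet_Icc).2 (Eventually.of_forall hc)
    have h1 := (hU.lim φ hφ i).sub_const (m i * ∫ x in cube, φ x)
    have e1 : (∫ x in cube, U x i * φ x) - m i * ∫ x in cube, φ x
        = ∫ x in cube, (U x i - m i) * φ x := by
      rw [← integral_const_mul, ← integral_sub hbd (hφ.int.const_mul _)]
      congr 1
      funext x
      ring
    rw [← e1]
    refine h1.congr' ?_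
    filter_upwards [Ioo_mem_nhdsLT hT] with s hs
    have hs' := h.sp ⟨hs.1.le, hs.2⟩ i
    rw [← integral_const_mul, ← integral_sub (hs'.mul hφ).int (hφ.int.const_mul _)]
    congr 1
    funext x
    ring
  have h2 : Tendsto (fun s => ∑ i, ∑ k ∈ bx n, mc n k *
      ((∫ x in cube, (u s x i - m i) * cr k x) ^ 2
      + (∫ x in cube, (u s x i - m i) * ci k x) ^ 2)) (𝓝[<] T)
      (𝓝 (∑ i, ∑ k ∈ bx n, mc n k * ((∫ x in cube, (U x i - m i) * cr k x) ^ 2
      + (∫ x in cube, (U x i - m i) * ci k x) ^ 2))) := by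
    refine tendsto_finsetSum _ fun i _ => tendsto_finsetSum _ fun k _ => ?_
    exact ((((hlim i _ (sp_cr k)).pow 2).add ((hlim i _ (sp_ci k)).pow 2)).const_mul _)
  have e2 : ∑ i, ∑ k ∈ bx n, mc n k *
      (fr (fun y => U y i - m i) k * (starRingEnd ℂ) (fr (fun y => U y i - m i) k)).re
      = ∑ i, ∑ k ∈ bx n, mc n k * ((∫ x in cube, (U x i - m i) * cr k x) ^ 2
      + (∫ x in cube, (U x i - m i) * ci k x) ^ 2) := by
    refine Finset.sum_congr rfl fun i _ => Finset.sum_congr rfl fun k _ => ?_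
    rw [← fr_re (hiU i), ← fr_im (hiU i), Complex.mul_conj, Complex.ofReal_re,
      Complex.normSq_apply]
    ring
  rw [e2]
  refine h2.congr' ?_
  filter_upwards [Ioo_mem_nhdsLT hT] with s hs
  exact (GG_eq fun i => h.sp ⟨hs.1.le, hs.2⟩ i).symm

theorem enst_nonneg (v : V → V) : 0 ≤ enstrophy v := enstrophy_nonneg v

theorem mom_lim (h : IsSol 0 T u p) (hT : 0 < T) {U : V → V} (hU : WeakLimit T u U) (i : Fin 3)
    {t : ℝ} (ht : t ∈ Ico 0 T) : ∫ x in cube, u t x i = ∫ x in cube, U x i := by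
  have h1 := hU.lim _ sp_one i
  simp only [mul_one] at h1
  have h2 : Tendsto (fun s => ∫ x in cube, u s x i) (𝓝[<] T) (𝓝 (∫ x in cube, u 0 x i)) := by
    refine tendsto_const_nhds.congr' ?_
    filter_upwards [Ioo_mem_nhdsLT hT] with s hs
    exact (mom_eq h i ⟨hs.1.le, hs.2⟩).symm
  rw [mom_eq h i ht]
  exact tendsto_nhds_unique h2 h1

/-- expansion of the energy in the moving frame -/
theorem sq_expand {f : V → ℝ} (hf : IntegrableOn f cube) (hf2 : IntegrableOn (fun x => f x ^ 2) cube)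
    (c : ℝ) : ∫ x in cube, (f x - c) ^ 2
      = (∫ x in cube, f x ^ 2) - 2 * c * (∫ x in cube, f x) + c ^ 2 := by
  have e : ∀ x, (f x - c) ^ 2 = f x ^ 2 - 2 * c * f x + c ^ 2 := fun x => by ring
  simp_rw [e]
  have i1 : IntegrableOn (fun x => f x ^ 2 - 2 * c * f x) cube := hf2.sub (hf.const_mul _)
  have i2 : IntegrableOn (fun _ : V => c ^ 2) cube := integrableOn_cube continuous_const
  rw [integral_add i1 i2, integral_sub hf2 (hf.const_mul _), integral_const_mul]
  simp [Measure.real, volume_cube]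

theorem loss_eq (h : IsSol 0 T u p) (hT : 0 < T) {U : V → V} (hU : WeakLimit T u U) (m : V)
    {t : ℝ} (ht : t ∈ Ico 0 T) :
    loss u U = (∑ i, ∫ x in cube, (u t x i - m i) ^ 2) - ∑ i, ∫ x in cube, (U x i - m i) ^ 2 := by
  have e1 : ∀ i, ∫ x in cube, (u t x i - m i) ^ 2 = (∫ x in cube, u t x i ^ 2)
      - 2 * m i * (∫ x in cube, u t x i) + m i ^ 2 := fun i =>
    sq_expand (h.sp ht i).int (integrableOn_cube ((h.sp ht i).cont.pow 2)) (m i)
  have e2 : ∀ i, ∫ x in cube, (U x i - m i) ^ 2 = (∫ x in cube, U x i ^ 2)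
      - 2 * m i * (∫ x in cube, U x i) + m i ^ 2 := fun i => sq_expand (hU.int i) (hU.sq i) (m i)
  simp_rw [e1, e2, mom_lim h hT hU _ ht]
  rw [loss, ← energy_eq h ht]
  unfold energy
  simp only [Fin.sum_univ_three]
  ring

/-- the loss is at most the enstrophy -/
theorem loss_le_enst (h : IsSol 0 T u p) (hT : 0 < T) {U : V → V} (hU : WeakLimit T u U)
    {t : ℝ} (ht : t ∈ Ico 0 T) : loss u U ≤ enstrophy (u t) := by
  rw [loss_eq h hT hU 0 ht]
  simp only [Pi.zero_apply, sub_zero]
  have h1 : ∀ i, (∫ x in cube, u t x i ^ 2) - (∫ x in cube, U x i ^ 2)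
      ≤ ∑ j, ∫ x in cube, pd j (fun y => u t y i) x ^ 2 := by
    intro i
    have hb := AA_bessel (n := fun _ => 0) (hU.int i) (hU.sq i)
    have he := AA_energy 0 (h.sp ht i)
    rw [int_AA_mul _ (h.sp ht i).int] at he
    have e : ∀ f : V → ℝ, IntegrableOn f cube → ∑ k ∈ bx (fun _ => 0), mc (fun _ => 0) k
        * (fr f k * (starRingEnd ℂ) (fr f k)).re = (∫ x in cube, f x) ^ 2 := by
      intro f hf
      have hbx : bx (fun _ => 0) = {0} := by
        ext k
        unfold bx
        rw [Fintype.mem_piFinset, Finset.mem_singleton]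
        constructor
        · intro hk
          funext j
          simpa using hk j
        · rintro rfl j
          simp
      have hre : (fr f 0).re = ∫ x in cube, f x := by
        rw [fr_re hf]
        congr 1
        funext x
        unfold cr
        rw [neg_zero, ee_zero]
        simp
      have him : (fr f 0).im = 0 := by
        rw [fr_im hf]
        have : ∀ x, f x * ci 0 x = 0 := by
          intro x
          unfold ci
          rw [neg_zero, ee_zero]
          simp
        simp_rw [this]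
        simp
      rw [hbx, Finset.sum_singleton, mc_zero, one_mul, Complex.mul_conj, Complex.ofReal_re,
        Complex.normSq_apply, hre, him]
      ring
    rw [e _ (hU.int i)] at hb
    rw [e _ (h.sp ht i).int, mom_lim h hT hU i ht] at he
    simp only [Nat.cast_zero, zero_add, div_one] at he
    linarith
  unfold enstrophy
  rw [← Finset.sum_sub_distrib]
  exact Finset.sum_le_sum fun i _ => h1 i

/-- the main estimate -/
theorem loss_le (h : IsSol 0 T u p) (hT : 0 < T) {U : V → V} (hU : WeakLimit T u U) (m : V)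
    (N : ℕ) {t : ℝ} (ht : t ∈ Ico 0 T) {X : ℝ → ℝ} (hX : IntegrableOn X (Ioo t T))
    (hXc : ∀ s ∈ Ioo t T, cube3 (fun i y => u s y i - m i) ≤ X s) :
    loss u U ≤ enstrophy (u t) / (N + 2)
      + 12 * Real.pi * Real.sqrt (N + 1) * ∫ s in t..T, X s := by
  set n : Fin 3 → ℕ := fun _ => N + 1 with hn
  set κ : ℝ := 12 * Real.pi * Real.sqrt (N + 1) with hκ
  have hκ0 : 0 ≤ κ := by have := Real.pi_pos; positivity
  have hX0 : ∀ s ∈ Ioo t T, 0 ≤ X s := fun s hs => (cube3_nonneg _).trans (hXc s hs)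
  have hXi : IntervalIntegrable X volume t T := by
    rw [intervalIntegrable_iff_integrableOn_Ioo_of_le ht.2.le]
    exact hX
  -- the increment
  have h1 : ∀ t' ∈ Ioo t T, GG n m u t - κ * ∫ s in t..T, X s ≤ GG n m u t' := by
    intro t' ht'
    have hsub : Icc t t' ⊆ Ico 0 T := fun s hs => ⟨ht.1.trans hs.1, hs.2.trans_lt ht'.2⟩
    have hD : ∀ s ∈ Ioo t t', ∃ D : ℝ, HasDerivAt (GG n m u) D s ∧ |D| ≤ κ * X s := by
      intro s hs
      obtain ⟨D, hD1, hD2⟩ := GG_deriv h m N (t := s) ⟨ht.1.trans_lt hs.1, hs.2.trans ht'.2⟩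
      refine ⟨D, hD1, hD2.trans ?_⟩
      exact mul_le_mul_of_nonneg_left (hXc s ⟨hs.1, hs.2.trans ht'.2⟩) hκ0
    have hi' : IntegrableOn X (Icc t t') := by
      have h2 : IntervalIntegrable X volume t t' :=
        hXi.mono_set (by
          rw [uIcc_of_le ht'.1.le, uIcc_of_le ht.2.le]
          exact Icc_subset_Icc_right ht'.2.le)
      rwa [intervalIntegrable_iff_integrableOn_Icc_of_le ht'.1.le] at h2
    have h3 := intervalIntegral.sub_le_integral_of_hasDeriv_right_of_le (a := t) (b := t')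
      (g := fun s => -GG n m u s) (g' := fun s => -deriv (GG n m u) s) (φ := fun s => κ * X s)
      ht'.1.le ((GG_cont h n m).mono hsub).neg (fun s hs => by
        obtain ⟨D, hD1, _⟩ := hD s hs
        rw [hD1.deriv]
        exact hD1.neg.hasDerivWithinAt) (hi'.const_mul κ) (fun s hs => by
        obtain ⟨D, hD1, hD2⟩ := hD s hs
        rw [hD1.deriv]
        exact (neg_le_abs D).trans hD2)
    rw [intervalIntegral.integral_const_mul] at h3
    have h4 : ∫ s in t..t', X s ≤ ∫ s in t..T, X s := by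
      rw [intervalIntegral.integral_of_le ht'.1.le, intervalIntegral.integral_of_le ht.2.le,
        integral_Ioc_eq_integral_Ioo, integral_Ioc_eq_integral_Ioo]
      refine setIntegral_mono_set hX ?_ (Ioo_subset_Ioo_right ht'.2.le).eventuallyLE
      exact (ae_restrict_iff' measurableSet_Ioo).2 (Eventually.of_forall hX0)
    have h5 := mul_le_mul_of_nonneg_left h4 hκ0
    linarith
  -- the limit
  have h2 := le_of_tendsto' (f := fun _ : ℝ => GG n m u t - κ * ∫ s in t..T, X s)
    (x := 𝓝[<] T) tendsto_const_nhds (b := GG n m u t - κ * ∫ s in t..T, X s) fun _ => le_rfl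
  clear h2
  have hlim := GG_lim h hT hU n m
  have h3 : GG n m u t - κ * ∫ s in t..T, X s ≤ ∑ i, ∑ k ∈ bx n, mc n k *
      (fr (fun y => U y i - m i) k * (starRingEnd ℂ) (fr (fun y => U y i - m i) k)).re := by
    refine ge_of_tendsto hlim ?_
    filter_upwards [Ioo_mem_nhdsLT ht.2] with s hs
    exact h1 s hs
  have h4 : ∑ i, ∑ k ∈ bx n, mc n k *
      (fr (fun y => U y i - m i) k * (starRingEnd ℂ) (fr (fun y => U y i - m i) k)).re
      ≤ ∑ i, ∫ x in cube, (U x i - m i) ^ 2 := by
    refine Finset.sum_le_sum fun i _ => AA_bessel ((hU.int i).sub (integrableOn_cube continuous_const)) ?_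
    have e : ∀ x, (U x i - m i) ^ 2 = U x i ^ 2 - 2 * m i * U x i + m i ^ 2 := fun x => by ring
    simp_rw [e]
    exact ((hU.sq i).sub ((hU.int i).const_mul _)).add (integrableOn_cube continuous_const)
  have h5 : (∑ i, ∫ x in cube, (u t x i - m i) ^ 2) - GG n m u t
      ≤ enstrophy (u t) / (N + 2) := by
    unfold GG enstrophy
    rw [← Finset.sum_sub_distrib, Finset.sum_div]
    refine Finset.sum_le_sum fun i _ => ?_
    have h6 := AA_energy (N + 1) (sp_sub_const (h.sp ht i) (m i))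
    simp only [pd_sub_const] at h6
    refine h6.trans (le_of_eq ?_)
    push_cast
    congr 1
    ring
  rw [loss_eq h hT hU m ht]
  linarith

/-- pointwise bound -/
theorem loss_cube (h : IsSol 0 T u p) (hT : 0 < T) {U : V → V} (hU : WeakLimit T u U) (m : V)
    {t : ℝ} (ht : t ∈ Ico 0 T) {X : ℝ → ℝ} (hX : IntegrableOn X (Ioo t T))
    (hXc : ∀ s ∈ Ioo t T, cube3 (fun i y => u s y i - m i) ≤ X s) :
    loss u U ^ 3 ≤ 23040 * (enstrophy (u t) * (∫ s in t..T, X s) ^ 2) := by
  set θ := loss u U with hθ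
  set D := enstrophy (u t) with hD
  set Y := ∫ s in t..T, X s with hY
  have hD0 : 0 ≤ D := enstrophy_nonneg _
  have hX0 : ∀ s ∈ Ioo t T, 0 ≤ X s := fun s hs => (cube3_nonneg _).trans (hXc s hs)
  have hY0 : 0 ≤ Y := by
    rw [hY, intervalIntegral.integral_of_le ht.2.le, integral_Ioc_eq_integral_Ioo]
    exact setIntegral_nonneg measurableSet_Ioo hX0
  rcases le_or_gt θ 0 with h0 | h0
  · have : θ ^ 3 ≤ 0 := by
      have h1 : θ ^ 3 = θ * θ ^ 2 := by ring
      rw [h1]
      exact mul_nonpos_of_nonpos_of_nonneg h0 (sq_nonneg _)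
    have h2 : 0 ≤ 23040 * (D * Y ^ 2) := by positivity
    linarith
  · have hθD : θ ≤ D := loss_le_enst h hT hU ht
    set N : ℕ := ⌈2 * D / θ⌉₊ with hN
    have h1 := loss_le h hT hU m N ht hX hXc
    have hN1 : 2 * D / θ ≤ N := Nat.le_ceil _
    have hN2 : (N : ℝ) < 2 * D / θ + 1 := Nat.ceil_lt_add_one (by positivity)
    have h2 : D / (N + 2) ≤ θ / 2 := by
      rw [div_le_div_iff₀ (by positivity) (by norm_num)]
      rw [div_le_iff₀ h0] at hN1
      nlinarith
    have h3 : (N : ℝ) + 1 ≤ 4 * D / θ := by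
      have h4 : 2 ≤ 2 * D / θ := by
        rw [le_div_iff₀ h0]
        linarith
      have h5 : 4 * D / θ = 2 * D / θ + 2 * D / θ := by ring
      linarith
    have h4 : θ / 2 ≤ 12 * Real.pi * Real.sqrt (N + 1) * Y := by linarith
    have h5 : (θ / 2) ^ 2 ≤ (12 * Real.pi * Real.sqrt (N + 1) * Y) ^ 2 :=
      pow_le_pow_left₀ (by positivity) h4 2
    have h6 : (12 * Real.pi * Real.sqrt (N + 1) * Y) ^ 2
        = 144 * Real.pi ^ 2 * (N + 1) * Y ^ 2 := by
      rw [mul_pow, mul_pow, mul_pow, Real.sq_sqrt (by positivity)]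
      ring
    have hpi : Real.pi ^ 2 ≤ 10 := by
      have h7 := Real.pi_lt_d2
      have h8 := Real.pi_pos
      nlinarith
    have h7 : (θ / 2) ^ 2 ≤ 1440 * (4 * D / θ) * Y ^ 2 := by
      rw [h6] at h5
      refine h5.trans ?_
      have : 144 * Real.pi ^ 2 ≤ 1440 := by linarith
      gcongr
    have h8 : (θ / 2) ^ 2 * θ ≤ 5760 * (D * Y ^ 2) := by
      calc (θ / 2) ^ 2 * θ ≤ 1440 * (4 * D / θ) * Y ^ 2 * θ :=
            mul_le_mul_of_nonneg_right h7 h0.le
        _ = 5760 * (D * Y ^ 2) := by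
            field_simp
            ring
    nlinarith

end

end Pool.Agent.Q62.EL
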