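import Pool.Agent.Q62.EL.Ker2

/-!
The smoothing operator with the kernel.
-/

set_option autoImplicit false

open MeasureTheory Set Filter Topology
open scoped ContDiff

namespace Pool.Agent.Q62.EL

open H459R3.NS H459R3.EU Pool.Agent.Q62.GD

variable {n : Fin 3 → ℕ}

/-- convolution with the kernel -/
noncomputable def AA (n : Fin 3 → ℕ) (f : V → ℝ) (x : V) : ℝ :=
  ∑ k ∈ bx n, mc n k * (fr f k * ee k x).re

theorem sp_AA (f : V → ℝ) : SP (AA n f) where
  smooth := by
    unfold AA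
    exact ContDiff.sum fun k _ => contDiff_const.mul
      (Complex.reCLM.contDiff.comp (contDiff_const.mul (ee_contDiff k)))
  per := fun i x => by
    unfold AA
    exact Finset.sum_congr rfl fun k _ => by rw [ee_per k i x]

theorem pd_re (c : ℂ) (k : K3) (j : Fin 3) (x : V) :
    HasFDerivAt (fun x => (c * ee k x).re) (Complex.reCLM.comp (c • fderiv ℝ (ee k) x)) x ∧
    (Complex.reCLM.comp (c • fderiv ℝ (ee k) x)) (Pi.single j 1)
      = (c * (2 * Real.pi * Complex.I * (k j : ℂ)) * ee k x).re := by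
  have d1 : HasFDerivAt (ee k) (fderiv ℝ (ee k) x) x :=
    ((ee_contDiff k (n := 1)).differentiable one_ne_zero x).hasFDerivAt
  refine ⟨Complex.reCLM.hasFDerivAt.comp x (d1.const_mul c), ?_⟩
  have h := pd_ee k j x
  unfold pd at h
  rw [ContinuousLinearMap.comp_apply, smul_apply, h, Complex.reCLM_apply,
    smul_eq_mul, ← mul_assoc]

theorem pd_AA {f : V → ℝ} (hf : SP f) (j : Fin 3) : pd j (AA n f) = AA n (pd j f) := by
  funext x
  have h1 : HasFDerivAt (AA n f) (∑ k ∈ bx n, mc n k •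
      (Complex.reCLM.comp (fr f k • fderiv ℝ (ee k) x))) x := by
    unfold AA
    exact HasFDerivAt.fun_sum fun k _ => (pd_re (fr f k) k j x).1.const_mul (mc n k)
  unfold pd
  rw [h1.fderiv, sum_apply]
  unfold AA
  refine Finset.sum_congr rfl fun k _ => ?_
  rw [smul_apply, (pd_re (fr f k) k j x).2, smul_eq_mul]
  have h2 : fr (fun x => fderiv ℝ f x (Pi.single j 1)) k = D j (fr f) k :=
    congrFun (fr_pd hf j) k
  rw [h2, D]
  congr 3
  ring

theorem pd_KK_eq (n : Fin 3 → ℕ) (j : Fin 3) (z : V) :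
    pd j (KK n) z = ∑ k ∈ bx n, mc n k * ((2 * Real.pi * Complex.I * (k j : ℂ)) * ee k z).re := by
  have e : KK n = fun z => ∑ k ∈ bx n, mc n k * ((1 : ℂ) * ee k z).re := by
    funext z
    have h := KK_eq n z
    have h1 := congrArg Complex.re h
    rw [Complex.ofReal_re, Complex.re_sum] at h1
    rw [h1]
    refine Finset.sum_congr rfl fun k _ => ?_
    rw [Complex.re_ofReal_mul, one_mul]
  have h1 : HasFDerivAt (KK n) (∑ k ∈ bx n, mc n k •
      (Complex.reCLM.comp ((1 : ℂ) • fderiv ℝ (ee k) z))) z := by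
    rw [e]
    exact HasFDerivAt.fun_sum fun k _ => (pd_re 1 k j z).1.const_mul (mc n k)
  unfold pd
  rw [h1.fderiv, sum_apply]
  refine Finset.sum_congr rfl fun k _ => ?_
  rw [smul_apply, (pd_re 1 k j z).2, smul_eq_mul, one_mul]

theorem ee_sub (k : K3) (x y : V) : ee k (x - y) = ee k x * ee (-k) y := by
  rw [sub_eq_add_neg, ee_add]
  congr 1
  unfold ee ph
  congr 2
  simp

/-- the derivative of the smoothed function is given by the kernel -/
theorem pd_AA_ker {f : V → ℝ} (hf : SP f) (j : Fin 3) (x : V) :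
    pd j (AA n f) x = ∫ y in cube, pd j (KK n) (x - y) * f y := by
  rw [pd_AA hf]
  have h1 : ∀ y, pd j (KK n) (x - y) * f y = ∑ k ∈ bx n, mc n k *
      ((2 * Real.pi * Complex.I * (k j : ℂ)) * ee k x * (ee (-k) y * (f y : ℂ))).re := by
    intro y
    rw [pd_KK_eq, Finset.sum_mul]
    refine Finset.sum_congr rfl fun k _ => ?_
    rw [ee_sub]
    have e : (2 * Real.pi * Complex.I * (k j : ℂ)) * ee k x * (ee (-k) y * (f y : ℂ))
        = (2 * Real.pi * Complex.I * (k j : ℂ)) * (ee k x * ee (-k) y) * (f y : ℂ) := by ring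
    rw [e, Complex.re_mul_ofReal]
    ring
  simp_rw [h1]
  have hi : ∀ k : K3, IntegrableOn (fun y => (2 * Real.pi * Complex.I * (k j : ℂ)) * ee k x
      * (ee (-k) y * (f y : ℂ))) cube := fun k => (int_fr hf k).const_mul _
  have hir : ∀ k : K3, IntegrableOn (fun y => mc n k * ((2 * Real.pi * Complex.I * (k j : ℂ))
      * ee k x * (ee (-k) y * (f y : ℂ))).re) cube := fun k => (hi k).re.const_mul (mc n k)
  rw [integral_finsetSum _ fun k _ => hir k]
  unfold AA
  refine Finset.sum_congr rfl fun k _ => ?_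
  rw [integral_const_mul]
  congr 1
  have h2 := Complex.reCLM.integral_comp_comm (hi k)
  simp only [Complex.reCLM_apply] at h2
  rw [h2, integral_const_mul]
  have h3 : fr (pd j f) k = D j (fr f) k := congrFun (fr_pd hf j) k
  rw [h3, D]
  unfold fr fc
  congr 1
  ring

theorem conj_fr' (g : V → ℝ) (k : K3) :
    ∫ y in cube, (ee k y * (g y : ℂ)) = (starRingEnd ℂ) (fr g k) := by
  rw [conj_fr]
  unfold fr fc
  rw [neg_neg]

theorem int_ee_mul {g : V → ℝ} (hg : IntegrableOn g cube) (k : K3) :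
    IntegrableOn (fun y => ee k y * (g y : ℂ)) cube := by
  refine (hg.ofReal (𝕜 := ℂ)).bdd_mul (c := 1) (ee_continuous k).aestronglyMeasurable ?_
  exact Eventually.of_forall fun y => (norm_ee k y).le

theorem int_AA_mul (f : V → ℝ) {g : V → ℝ} (hg : IntegrableOn g cube) :
    ∫ x in cube, AA n f x * g x
      = ∑ k ∈ bx n, mc n k * (fr f k * (starRingEnd ℂ) (fr g k)).re := by
  have h1 : ∀ x, AA n f x * g x = ∑ k ∈ bx n, mc n k * (fr f k * (ee k x * (g x : ℂ))).re := by
    intro x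
    unfold AA
    rw [Finset.sum_mul]
    refine Finset.sum_congr rfl fun k _ => ?_
    rw [← mul_assoc (fr f k), Complex.re_mul_ofReal]
    ring
  simp_rw [h1]
  have hi : ∀ k : K3, IntegrableOn (fun y => fr f k * (ee k y * (g y : ℂ))) cube := fun k =>
    (int_ee_mul hg k).const_mul _
  have hir : ∀ k : K3, IntegrableOn (fun y => mc n k * (fr f k * (ee k y * (g y : ℂ))).re) cube :=
    fun k => (hi k).re.const_mul (mc n k)
  rw [integral_finsetSum _ fun k _ => hir k]
  refine Finset.sum_congr rfl fun k _ => ?_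
  rw [integral_const_mul]
  congr 1
  have h2 := Complex.reCLM.integral_comp_comm (hi k)
  simp only [Complex.reCLM_apply] at h2
  rw [h2, integral_const_mul, conj_fr' g]

theorem AA_symm {f g : V → ℝ} (hf : SP f) (hg : SP g) :
    ∫ x in cube, AA n f x * g x = ∫ x in cube, AA n g x * f x := by
  rw [int_AA_mul f hg.int, int_AA_mul g hf.int]
  refine Finset.sum_congr rfl fun k _ => ?_
  congr 1
  simp only [Complex.mul_re, Complex.conj_re, Complex.conj_im]
  ring

theorem int_pd_AA_zero {f : V → ℝ} (hf : SP f) (j : Fin 3) :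
    ∫ x in cube, pd j f x * AA n f x = 0 := by
  have h1 := ibp hf (sp_AA (n := n) f) j
  rw [pd_AA hf] at h1
  have h2 := AA_symm (n := n) hf (hf.pd j)
  have e1 : ∫ x in cube, pd j f x * AA n f x = ∫ x in cube, AA n f x * pd j f x := by
    congr 1; funext x; ring
  have e2 : ∫ x in cube, f x * AA n (pd j f) x = ∫ x in cube, AA n (pd j f) x * f x := by
    congr 1; funext x; ring
  rw [e2] at h1
  rw [e1] at h1 ⊢
  linarith

theorem AA_sum {g : Fin 3 → V → ℝ} (hg : ∀ i, SP (g i)) (x : V) :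
    ∑ i, AA n (g i) x = AA n (fun y => ∑ i, g i y) x := by
  unfold AA
  rw [Finset.sum_comm]
  refine Finset.sum_congr rfl fun k _ => ?_
  rw [fr_sum fun i _ => hg i, Finset.sum_mul, Complex.re_sum, Finset.mul_sum]

theorem div_AA {v : Fin 3 → V → ℝ} (hv : ∀ i, SP (v i))
    (hdiv : ∀ x, ∑ i, pd i (v i) x = 0) (x : V) : ∑ i, pd i (AA n (v i)) x = 0 := by
  simp_rw [pd_AA (hv _)]
  rw [AA_sum fun i => (hv i).pd i]
  have e : (fun y => ∑ i, pd i (v i) y) = fun _ => 0 := funext hdiv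
  rw [e]
  unfold AA
  refine Finset.sum_eq_zero fun k _ => ?_
  rw [fr_zero]
  simp

/-- smoothing changes the energy by at most the enstrophy over `N + 1` -/
theorem AA_energy (N : ℕ) {f : V → ℝ} (hf : SP f) :
    (∫ x in cube, f x ^ 2) - ∫ x in cube, AA (fun _ => N) f x * f x
      ≤ (∑ j, ∫ x in cube, pd j f x ^ 2) / (N + 1) := by
  have hN : (0 : ℝ) < N + 1 := by positivity
  rw [int_AA_mul f hf.int, ← n2_fr hf, n2_sq]
  have e1 : ∀ j, ∫ x in cube, pd j f x ^ 2 = ∑' k, ‖D j (fr f) k‖ ^ 2 := by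
    intro j
    rw [← n2_fr (hf.pd j), fr_pd hf, n2_sq]
  simp_rw [e1]
  have hs0 := summable_sq (rap_fr hf).summable
  have hsj : ∀ j, Summable fun k => ‖D j (fr f) k‖ ^ 2 := fun j =>
    summable_sq ((rap_fr hf).D j).summable
  rw [← Summable.tsum_finsetSum fun j _ => hsj j, ← tsum_div_const]
  have e2 : ∑ k ∈ bx (fun _ => N), mc (fun _ => N) k * (fr f k * (starRingEnd ℂ) (fr f k)).re
      = ∑' k, mc (fun _ => N) k * ‖fr f k‖ ^ 2 := by
    rw [tsum_eq_sum (s := bx (fun _ => N)) fun k hk => by rw [mc_of_notMem hk, zero_mul]]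
    refine Finset.sum_congr rfl fun k _ => ?_
    rw [Complex.mul_conj, Complex.ofReal_re, Complex.normSq_eq_norm_sq]
  rw [e2]
  have hsm : Summable fun k => mc (fun _ => N) k * ‖fr f k‖ ^ 2 :=
    Summable.of_nonneg_of_le (fun k => mul_nonneg (mc_nonneg _ _) (sq_nonneg _))
      (fun k => mul_le_of_le_one_left (sq_nonneg _) (mc_le_one _ _)) hs0
  rw [← hs0.tsum_sub hsm]
  refine Summable.tsum_le_tsum (fun k => ?_) (hs0.sub hsm)
    ((summable_sum fun j _ => hsj j).div_const _)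
  have h1 := mc_ge N k
  have h2 : ∀ j, (k j : ℝ) ^ 2 * ‖fr f k‖ ^ 2 ≤ ‖D j (fr f) k‖ ^ 2 := by
    intro j
    rw [D, norm_mul, mul_pow]
    refine mul_le_mul_of_nonneg_right ?_ (sq_nonneg _)
    rw [norm_mul, norm_mul, norm_mul, Complex.norm_I, mul_one, Complex.norm_real,
      Real.norm_eq_abs, abs_of_pos Real.pi_pos, Complex.norm_ofNat, mul_pow]
    have h3 : ‖(k j : ℂ)‖ ^ 2 = (k j : ℝ) ^ 2 := by
      rw [Complex.norm_intCast, sq_abs]
    rw [h3]
    have h4 : 1 ≤ (2 * Real.pi) ^ 2 := by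
      have := Real.pi_gt_three
      nlinarith
    exact le_mul_of_one_le_left (sq_nonneg _) h4
  calc ‖fr f k‖ ^ 2 - mc (fun _ => N) k * ‖fr f k‖ ^ 2
      = (1 - mc (fun _ => N) k) * ‖fr f k‖ ^ 2 := by ring
    _ ≤ (∑ j, (k j : ℝ) ^ 2) / (N + 1) * ‖fr f k‖ ^ 2 := by gcongr
    _ = (∑ j, (k j : ℝ) ^ 2 * ‖fr f k‖ ^ 2) / (N + 1) := by
        rw [← Finset.sum_mul]
        ring
    _ ≤ (∑ j, ‖D j (fr f) k‖ ^ 2) / (N + 1) := by
        gcongr with j _
        exact h2 j

/-- Bessel's inequality -/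
theorem AA_bessel {f : V → ℝ} (hf : IntegrableOn f cube) (hf2 : IntegrableOn (fun x => f x ^ 2) cube) :
    ∑ k ∈ bx n, mc n k * (fr f k * (starRingEnd ℂ) (fr f k)).re ≤ ∫ x in cube, f x ^ 2 := by
  have h0 : ∑ k ∈ bx n, mc n k * (fr f k * (starRingEnd ℂ) (fr f k)).re
      ≤ ∑ k ∈ bx n, ‖fr f k‖ ^ 2 := by
    refine Finset.sum_le_sum fun k _ => ?_
    rw [Complex.mul_conj, Complex.ofReal_re, Complex.normSq_eq_norm_sq]
    exact mul_le_of_le_one_left (sq_nonneg _) (mc_le_one _ _)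
  refine h0.trans ?_
  set g : V → ℝ := PL (bx n) f with hg
  have hsg : SP g := sp_PL f
  have hΛ : ∀ k ∈ bx n, -k ∈ bx n := fun k hk => bx_neg hk
  have e1 : ∫ x in cube, g x ^ 2 = ∑ k ∈ bx n, ‖fr f k‖ ^ 2 := by
    rw [← n2_fr hsg, n2_sq, tsum_eq_sum (s := bx n) fun k hk => by
      rw [hg, fr_PL hΛ, if_neg hk]; simp]
    refine Finset.sum_congr rfl fun k hk => ?_
    rw [hg, fr_PL hΛ, if_pos hk]
  have e2 : ∫ x in cube, g x * f x = ∑ k ∈ bx n, ‖fr f k‖ ^ 2 := by
    have h1 : ∀ x, g x * f x = ∑ k ∈ bx n, (fr f k * (ee k x * (f x : ℂ))).re := by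
      intro x
      rw [hg]
      unfold PL
      rw [Finset.sum_mul]
      refine Finset.sum_congr rfl fun k _ => ?_
      rw [← mul_assoc (fr f k), Complex.re_mul_ofReal]
    simp_rw [h1]
    have hi : ∀ k : K3, IntegrableOn (fun y => fr f k * (ee k y * (f y : ℂ))) cube := fun k =>
      (int_ee_mul hf k).const_mul _
    have hir : ∀ k : K3, IntegrableOn (fun y => (fr f k * (ee k y * (f y : ℂ))).re) cube :=
      fun k => (hi k).re
    rw [integral_finsetSum _ fun k _ => hir k]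
    refine Finset.sum_congr rfl fun k _ => ?_
    have h2 := Complex.reCLM.integral_comp_comm (hi k)
    simp only [Complex.reCLM_apply] at h2
    rw [h2, integral_const_mul, conj_fr' f, Complex.mul_conj, Complex.ofReal_re,
      Complex.normSq_eq_norm_sq]
  have hgf : IntegrableOn (fun x => g x * f x) cube := by
    have h3 : Integrable (fun x => f x * g x) (volume.restrict cube) := by
      have h4 : ∃ c, ∀ x ∈ cube, ‖g x‖ ≤ c := by
        obtain ⟨c, hc⟩ := (isCompact_Icc (a := (0 : V)) (b := 1)).exists_bound_of_continuousOn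
          hsg.cont.continuousOn
        exact ⟨c, hc⟩
      obtain ⟨c, hc⟩ := h4
      refine hf.mul_bdd (c := c) hsg.cont.aestronglyMeasurable ?_
      exact (ae_restrict_iff' measurableSet_Icc).2 (Eventually.of_forall hc)
    refine h3.congr (Eventually.of_forall fun x => ?_)
    ring
  have h5 : 0 ≤ ∫ x in cube, (f x - g x) ^ 2 := integral_nonneg fun _ => sq_nonneg _
  have e3 : ∀ x, (f x - g x) ^ 2 = f x ^ 2 - 2 * (g x * f x) + g x ^ 2 := fun x => by ring
  simp_rw [e3] at h5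
  have i1 : IntegrableOn (fun x => f x ^ 2 - 2 * (g x * f x)) cube := hf2.sub (hgf.const_mul 2)
  have i2 : IntegrableOn (fun x => g x ^ 2) cube := integrableOn_cube (hsg.cont.pow 2)
  rw [integral_add i1 i2, integral_sub hf2 (hgf.const_mul 2), integral_const_mul, e1, e2] at h5
  linarith

end Pool.Agent.Q62.EL
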